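import Pool.Agent.Lib.OrlovSig.Defs

/-!
# A monotone sequence with vanishing block sums and second moment is zero
-/

set_option autoImplicit false

namespace Pool.Agent.Lib.OrlovSix

open Pool.Agent.Lib.OrlovSig

/-- Abel summation against weights whose averages increase. -/
theorem abel (w χ l t : ℕ → ℚ) (hχ : ∀ i, 0 ≤ χ i) (hχ0 : 1 ≤ χ 0)
    (hl : ∀ m, l m * ∑ i ∈ Finset.range m, χ i = ∑ i ∈ Finset.range m, w i)
    (hinc : ∀ m, 1 ≤ m → l m + 1 ≤ l (m + 1)) (n : ℕ) (ht : ∀ i, i + 1 < n → t i ≤ t (i + 1)) :
    ∀ m, m + 1 ≤ n → t m - t 0 ≤ ∑ i ∈ Finset.range (m + 1), w i * t i -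
      l (m + 1) * ∑ i ∈ Finset.range (m + 1), χ i * t i := by
  have hmono : ∀ m, m + 1 ≤ n → ∀ i ≤ m, t i ≤ t m := by
    intro m
    induction m with
    | zero =>
      intro _ i hi
      rw [Nat.le_zero.1 hi]
    | succ m ih =>
      intro hm i hi
      rcases Nat.lt_or_ge i (m + 1) with h | h
      · exact (ih (by omega) i (by omega)).trans (ht m (by omega))
      · rw [le_antisymm hi h]
  intro m
  induction m with
  | zero =>
    intro _
    have h1 := hl 1
    simp only [zero_add, Finset.sum_range_one] at h1 ⊢
    have h2 : l 1 * (χ 0 * t 0) = w 0 * t 0 := by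
      rw [← mul_assoc, h1]
    rw [h2, sub_self, sub_self]
  | succ m ih =>
    intro hm
    have ih' := ih (by omega)
    have hm0 := hmono m (by omega) 0 (Nat.zero_le _)
    have e1 := hl (m + 1)
    have e2 := hl (m + 1 + 1)
    rw [Finset.sum_range_succ χ (m + 1), Finset.sum_range_succ w (m + 1), ← e1] at e2
    have e3 : w (m + 1) = l (m + 1 + 1) * (∑ i ∈ Finset.range (m + 1), χ i + χ (m + 1)) -
        l (m + 1) * ∑ i ∈ Finset.range (m + 1), χ i := by
      rw [e2]
      ring
    have e4 : ∑ i ∈ Finset.range (m + 1 + 1), w i * t i - l (m + 1 + 1) *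
        ∑ i ∈ Finset.range (m + 1 + 1), χ i * t i =
        (∑ i ∈ Finset.range (m + 1), w i * t i -
          l (m + 1) * ∑ i ∈ Finset.range (m + 1), χ i * t i) +
        (l (m + 1 + 1) - l (m + 1)) * (∑ i ∈ Finset.range (m + 1), χ i * (t (m + 1) - t i)) := by
      rw [Finset.sum_range_succ (fun i => w i * t i) (m + 1),
        Finset.sum_range_succ (fun i => χ i * t i) (m + 1), e3]
      simp only [mul_sub, Finset.sum_sub_distrib, ← Finset.sum_mul]
      ring
    rw [e4]
    have e5 : t (m + 1) - t 0 ≤ ∑ i ∈ Finset.range (m + 1), χ i * (t (m + 1) - t i) := by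
      rw [Finset.sum_range_succ' (fun i => χ i * (t (m + 1) - t i)) m]
      have h1 : 0 ≤ ∑ i ∈ Finset.range m, χ (i + 1) * (t (m + 1) - t (i + 1)) := by
        refine Finset.sum_nonneg (fun i hi => mul_nonneg (hχ _) ?_)
        rw [Finset.mem_range] at hi
        rw [sub_nonneg]
        exact hmono (m + 1) hm (i + 1) (by omega)
      have h2 : t (m + 1) - t 0 ≤ χ 0 * (t (m + 1) - t 0) := by
        have h3 : 0 ≤ t (m + 1) - t 0 := sub_nonneg.2 (hmono (m + 1) hm 0 (Nat.zero_le _))
        nlinarith
      linarith
    have e6 : 0 ≤ t (m + 1) - t 0 := sub_nonneg.2 (hmono (m + 1) hm 0 (Nat.zero_le _))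
    have e7 := hinc (m + 1) (by omega)
    have e8 : t (m + 1) - t 0 ≤ (l (m + 1 + 1) - l (m + 1)) *
        ∑ i ∈ Finset.range (m + 1), χ i * (t (m + 1) - t i) := by
      have h1 : (1 : ℚ) ≤ l (m + 1 + 1) - l (m + 1) := by linarith
      nlinarith
    linarith

/-- The conclusion of `abel` when both sums vanish. -/
theorem abel_zero (w χ l t : ℕ → ℚ) (hχ : ∀ i, 0 ≤ χ i) (hχ0 : 1 ≤ χ 0)
    (hl : ∀ m, l m * ∑ i ∈ Finset.range m, χ i = ∑ i ∈ Finset.range m, w i)
    (hinc : ∀ m, 1 ≤ m → l m + 1 ≤ l (m + 1)) (n : ℕ) (ht : ∀ i, i + 1 < n → t i ≤ t (i + 1))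
    (h1 : ∑ i ∈ Finset.range n, w i * t i = 0) (h2 : ∑ i ∈ Finset.range n, χ i * t i = 0) :
    ∀ i < n, t i = 0 := by
  rcases Nat.eq_zero_or_pos n with hn | hn
  · intro i hi
    omega
  obtain ⟨m, rfl⟩ : ∃ m, n = m + 1 := ⟨n - 1, by omega⟩
  have hmono : ∀ m', m' ≤ m → ∀ i ≤ m', t i ≤ t m' := by
    intro m'
    induction m' with
    | zero =>
      intro _ i hi
      rw [Nat.le_zero.1 hi]
    | succ m' ih =>
      intro hm i hi
      rcases Nat.lt_or_ge i (m' + 1) with h | h
      · exact (ih (by omega) i (by omega)).trans (ht m' (by omega))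
      · rw [le_antisymm hi h]
  have h3 := abel w χ l t hχ hχ0 hl hinc (m + 1) ht m le_rfl
  rw [h1, h2, mul_zero, sub_zero] at h3
  have h4 : ∀ i ≤ m, t i = t 0 := fun i hi =>
    le_antisymm ((hmono m le_rfl i hi).trans (by linarith)) (hmono i hi 0 (Nat.zero_le _))
  have h5 : ∑ i ∈ Finset.range (m + 1), χ i * t i = (∑ i ∈ Finset.range (m + 1), χ i) * t 0 := by
    rw [Finset.sum_mul]
    refine Finset.sum_congr rfl (fun i hi => ?_)
    rw [Finset.mem_range] at hi
    rw [h4 i (by omega)]
  have h6 : 1 ≤ ∑ i ∈ Finset.range (m + 1), χ i := by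
    rw [Finset.sum_range_succ' χ m]
    have := Finset.sum_nonneg (s := Finset.range m) (f := fun i => χ (i + 1)) (fun i _ => hχ _)
    linarith
  rw [h5] at h2
  have h7 : t 0 = 0 := by
    rcases mul_eq_zero.1 h2 with h | h
    · linarith
    · exact h
  intro i hi
  rw [h4 i (by omega), h7]

/-- one-sided sums over the even degrees below the middle -/
theorem sum_below (d m : ℕ) (hd : d = 2 * m + 1 ∨ d = 2 * m + 2) (F : ℕ → ℚ)
    (hF : ∀ j, F j ≠ 0 → j < d ∧ j % 2 = 0 ∧ 0 < j) :
    ∑ j ∈ Finset.range (2 * d + 1), F j =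
      ∑ i ∈ Finset.range m, F (2 * (m - i)) := by
  have h1 : ∑ i ∈ Finset.range m, F (2 * (m - i)) =
      ∑ j ∈ (Finset.range m).image (fun i => 2 * (m - i)), F j := by
    rw [Finset.sum_image]
    intro i hi i' hi' h
    rw [Finset.mem_coe, Finset.mem_range] at hi hi'
    dsimp only at h
    omega
  rw [h1]
  symm
  apply Finset.sum_subset
  · intro j hj
    rw [Finset.mem_image] at hj
    obtain ⟨i, hi, rfl⟩ := hj
    rw [Finset.mem_range] at hi ⊢
    omega
  · intro j _ hj
    by_contra h
    obtain ⟨a1, a2, a3⟩ := hF j h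
    apply hj
    rw [Finset.mem_image]
    refine ⟨m - j / 2, ?_, ?_⟩
    · rw [Finset.mem_range]
      omega
    · omega

/-- two-sided sums over the even degrees -/
theorem sum_both (d m : ℕ) (hd : d = 2 * m + 1 ∨ d = 2 * m + 2) (F : ℕ → ℚ)
    (hs : ∀ j ≤ d, F (2 * d - j) = F j) (h0 : F 0 = 0) (hm : F d = 0)
    (hodd : ∀ j ≤ d, j % 2 = 1 → F j = 0) :
    ∑ j ∈ Finset.range (2 * d + 1), F j =
      2 * ∑ i ∈ Finset.range m, F (2 * (m - i)) := by
  have e1 : ∑ j ∈ Finset.range (2 * d + 1), F j =
      ∑ j ∈ Finset.range (2 * d + 1), (if j < d then F j else 0) +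
        ∑ j ∈ Finset.range (2 * d + 1), (if d < j then F j else 0) := by
    rw [← Finset.sum_add_distrib]
    refine Finset.sum_congr rfl (fun j _ => ?_)
    rcases lt_trichotomy j d with h | h | h
    · rw [if_pos h, if_neg (by omega), add_zero]
    · rw [h, if_neg (by omega), hm]
      simp
    · rw [if_neg (by omega), if_pos h, zero_add]
  have e2 : ∑ j ∈ Finset.range (2 * d + 1), (if d < j then F j else 0) =
      ∑ j ∈ Finset.range (2 * d + 1), (if j < d then F j else 0) := by
    rw [← Finset.sum_range_reflect]
    refine Finset.sum_congr rfl (fun j hj => ?_)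
    rw [Finset.mem_range] at hj
    rw [show 2 * d + 1 - 1 - j = 2 * d - j by omega]
    by_cases h : j < d
    · rw [if_pos (by omega), if_pos h, hs j h.le]
    · rw [if_neg (by omega), if_neg h]
  rw [e1, e2, sum_below d m hd]
  · rw [← two_mul]
    congr 1
    refine Finset.sum_congr rfl (fun i hi => ?_)
    rw [Finset.mem_range] at hi
    rw [if_pos (by omega)]
  · intro j hj
    by_cases h : j < d
    · rw [if_pos h] at hj
      refine ⟨h, ?_, ?_⟩
      · by_contra h2
        exact hj (hodd j h.le (by omega))
      · rcases Nat.eq_zero_or_pos j with h2 | h2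
        · rw [h2] at hj
          exact absurd h0 hj
        · exact h2
    · rw [if_neg h] at hj
      exact absurd rfl hj

/-- `δ` is symmetric, vanishes in the odd degrees and in degree `0`, is nonincreasing on the even
degrees between `2` and the middle; the block sums and the second moment vanish. -/
theorem even_zero (δ : ℕ → ℚ) (d : ℕ) (hs : ∀ j ≤ d, δ (2 * d - j) = δ j)
    (hodd : ∀ j ≤ d, j % 2 = 1 → δ j = 0) (h0 : δ 0 = 0)
    (hmono : ∀ j, j % 2 = 0 → 2 ≤ j → j + 2 < d → δ (j + 2) ≤ δ j)
    (hblk : ∀ a, ∑ j ∈ Finset.range (2 * d + 1), (if block d j = a then δ j else 0) = 0)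
    (hmom : ∑ j ∈ Finset.range (2 * d + 1), ((j : ℚ) - d) ^ 2 * δ j = 0) :
    ∀ j < d, j % 2 = 0 → δ j = 0 := by
  rcases Nat.eq_zero_or_pos d with hd0 | hd0
  · intro j hj
    omega
  obtain ⟨m, hm⟩ : ∃ m, d = 2 * m + 1 ∨ d = 2 * m + 2 := ⟨(d - 1) / 2, by omega⟩
  have e1 := sum_both d m hm (fun j => ((j : ℚ) - d) ^ 2 * δ j) (by
    intro j hj
    rw [hs j hj]
    congr 1
    rw [Nat.cast_sub (by omega)]
    push_cast
    ring) (by rw [h0, mul_zero]) (by rw [sub_self]; simp)
    (by
      intro j hj hje
      rw [hodd j hj hje, mul_zero])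
  rw [hmom] at e1
  have e2 : ∑ i ∈ Finset.range m, (((2 * (m - i) : ℕ) : ℚ) - d) ^ 2 * δ (2 * (m - i)) = 0 := by
    linarith
  have ht : ∀ i, i + 1 < m → δ (2 * (m - i)) ≤ δ (2 * (m - (i + 1))) := by
    intro i hi
    have h1 := hmono (2 * (m - (i + 1))) (by omega) (by omega) (by omega)
    rwa [show 2 * (m - (i + 1)) + 2 = 2 * (m - i) by omega] at h1
  have key : ∀ i < m, δ (2 * (m - i)) = 0 := by
    rcases hm with hm | hm
    · -- odd dimension
      refine abel_zero (fun i => (2 * (i : ℚ) + 1) ^ 2) (fun _ => 1)
        (fun n => (4 * (n : ℚ) ^ 2 - 1) / 3) (fun i => δ (2 * (m - i))) (fun _ => zero_le_one)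
        le_rfl ?_ ?_ m ht ?_ ?_
      · intro n
        induction n with
        | zero => simp
        | succ n ih =>
          rw [Finset.sum_range_succ (fun i : ℕ => (2 * (i : ℚ) + 1) ^ 2) n, ← ih]
          simp only [Finset.sum_const, Finset.card_range, nsmul_eq_mul]
          push_cast
          ring
      · intro n hn
        have : (1 : ℚ) ≤ n := by exact_mod_cast hn
        push_cast
        nlinarith
      · refine Eq.trans (Finset.sum_congr rfl (fun i hi => ?_)) e2
        rw [Finset.mem_range] at hi
        congr 1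
        rw [hm]
        push_cast
        rw [Nat.cast_sub hi.le]
        ring
      · have h1 := hblk 3
        rw [sum_below d m (Or.inl hm)] at h1
        · refine Eq.trans (Finset.sum_congr rfl (fun i hi => ?_)) h1
          rw [Finset.mem_range] at hi
          rw [one_mul, if_pos]
          unfold block
          split_ifs <;> omega
        · intro j hj
          by_cases hb : block d j = 3
          · rw [if_pos hb] at hj
            have h2 : j < d ∧ j % 2 = 0 := by
              unfold block at hb
              split_ifs at hb <;> omega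
            refine ⟨h2.1, h2.2, ?_⟩
            rcases Nat.eq_zero_or_pos j with h3 | h3
            · rw [h3] at hj
              exact absurd h0 hj
            · exact h3
          · rw [if_neg hb] at hj
            exact absurd rfl hj
    · -- even dimension
      refine abel_zero (fun i => (2 * (i : ℚ) + 2) ^ 2) (fun i => if i % 2 = 0 then 1 else 0)
        (fun n => if n % 2 = 0 then 4 * ((n : ℚ) + 1) * (2 * n + 1) / 3
          else 4 * (n : ℚ) * (2 * n + 1) / 3)
        (fun i => δ (2 * (m - i))) ?_ ?_ ?_ ?_ m ht ?_ ?_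
      · intro i
        split_ifs <;> norm_num
      · simp
      · have hcount : ∀ n : ℕ, (∑ i ∈ Finset.range n, if i % 2 = 0 then (1 : ℚ) else 0) =
            if n % 2 = 0 then (n : ℚ) / 2 else ((n : ℚ) + 1) / 2 := by
          intro n
          induction n with
          | zero => simp
          | succ n ih =>
            rw [Finset.sum_range_succ, ih]
            rcases Nat.mod_two_eq_zero_or_one n with h | h
            · rw [if_pos h, if_pos h, if_neg (by omega)]
              push_cast
              ring
            · rw [if_neg (by omega), if_neg (by omega), if_pos (by omega)]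
              push_cast
              ring
        have hsq : ∀ n : ℕ, (∑ i ∈ Finset.range n, (2 * (i : ℚ) + 2) ^ 2) =
            4 * (n : ℚ) * (n + 1) * (2 * n + 1) / 6 := by
          intro n
          induction n with
          | zero => simp
          | succ n ih =>
            rw [Finset.sum_range_succ, ih]
            push_cast
            ring
        intro n
        rw [hcount, hsq]
        rcases Nat.mod_two_eq_zero_or_one n with h | h
        · rw [if_pos h, if_pos h]
          ring
        · rw [if_neg (by omega), if_neg (by omega)]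
          ring
      · intro n hn
        have : (1 : ℚ) ≤ n := by exact_mod_cast hn
        rcases Nat.mod_two_eq_zero_or_one n with h | h
        · rw [if_pos h, if_neg (by omega)]
          have h2 : (2 : ℚ) ≤ n := by
            have h3 : 2 ≤ n := by omega
            exact_mod_cast h3
          push_cast
          nlinarith
        · rw [if_neg (by omega), if_pos (by omega)]
          push_cast
          nlinarith
      · refine Eq.trans (Finset.sum_congr rfl (fun i hi => ?_)) e2
        rw [Finset.mem_range] at hi
        congr 1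
        rw [hm]
        push_cast
        rw [Nat.cast_sub hi.le]
        ring
      · have h1 := hblk 1
        rw [sum_below d m (Or.inr hm)] at h1
        · refine Eq.trans (Finset.sum_congr rfl (fun i hi => ?_)) h1
          rw [Finset.mem_range] at hi
          rcases Nat.mod_two_eq_zero_or_one i with h | h
          · rw [if_pos h, one_mul, if_pos]
            unfold block
            split_ifs <;> omega
          · have h4 : (2 * (m - i)) % 4 = d % 4 := by omega
            rw [if_neg (by omega), zero_mul, if_neg]
            unfold block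
            rw [if_pos h4]
            omega
        · intro j hj
          by_cases hb : block d j = 1
          · rw [if_pos hb] at hj
            have h2 : j < d ∧ j % 2 = 0 := by
              unfold block at hb
              split_ifs at hb <;> omega
            refine ⟨h2.1, h2.2, ?_⟩
            rcases Nat.eq_zero_or_pos j with h3 | h3
            · rw [h3] at hj
              exact absurd h0 hj
            · exact h3
          · rw [if_neg hb] at hj
            exact absurd rfl hj
  intro j hj hje
  rcases Nat.eq_zero_or_pos j with h | h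
  · rw [h, h0]
  · have h1 := key (m - j / 2) (by omega)
    rwa [show 2 * (m - (m - j / 2)) = j by omega] at h1

end Pool.Agent.Lib.OrlovSix
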