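import Pool.Agent.Lib.OrlovChow.Abs
import Pool.Agent.Lib.OrlovSix.Even

/-!
# All degrees from one moment relation

Complement to `OrlovChow.Abs`: a parity is treated alone, and the degree two is found from a
relation between the traces.
-/

set_option autoImplicit false

namespace Pool.Agent.Lib.OrlovSix

open Pool.Agent.Lib.OrlovSig Pool.Agent.Lib.OrlovChow

/-- the terms of the moment relation -/
theorem two_of_moment (b b' : ℕ → ℚ) (d : ℕ) (hs : ∀ j ≤ d, b (2 * d - j) = b j)
    (hs' : ∀ j ≤ d, b' (2 * d - j) = b' j)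
    (htot : ∑ j ∈ Finset.range (2 * d + 1), b j = ∑ j ∈ Finset.range (2 * d + 1), b' j)
    (hmom : ∑ j ∈ Finset.range (2 * d + 1), (-1 : ℚ) ^ j * ((j : ℚ) - d) ^ 2 * b j =
      ∑ j ∈ Finset.range (2 * d + 1), (-1 : ℚ) ^ j * ((j : ℚ) - d) ^ 2 * b' j)
    (hodd : ∀ j ≤ d, j % 2 = 1 → b j = b' j) (j0 : ℕ) (h2 : 2 < j0) (hj0 : j0 ≤ d)
    (heven : ∀ j ≤ d, j % 2 = 0 → j ≠ 2 → j ≠ j0 → b j = b' j) : b 2 = b' 2 := by
  have hδ : ∀ j ≤ 2 * d, j ≠ 2 → j ≠ 2 * d - 2 → j ≠ j0 → j ≠ 2 * d - j0 → b j - b' j = 0 := by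
    intro j hj h1 h3 h4 h5
    have key : ∀ i ≤ d, i ≠ 2 → i ≠ j0 → b i = b' i := by
      intro i hi hi2 hij
      rcases Nat.mod_two_eq_zero_or_one i with h | h
      · exact heven i hi h hi2 hij
      · exact hodd i hi h
    rcases Nat.le_total j d with h | h
    · rw [key j h h1 h4, sub_self]
    · have e := hs (2 * d - j) (by omega)
      have e' := hs' (2 * d - j) (by omega)
      rw [show 2 * d - (2 * d - j) = j by omega] at e e'
      rw [e, e', key (2 * d - j) (by omega) (by omega) (by omega), sub_self]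
  have hpar : ∀ j ≤ 2 * d, (-1 : ℚ) ^ j * ((j : ℚ) - d) ^ 2 * (b j - b' j) =
      ((j : ℚ) - d) ^ 2 * (b j - b' j) := by
    intro j hj
    rcases Nat.even_or_odd j with h | h
    · rw [h.neg_one_pow, one_mul]
    · have h0 : b j - b' j = 0 := by
        rcases Nat.le_total j d with h' | h'
        · rw [hodd j h' (Nat.odd_iff.1 h), sub_self]
        · have e := hs (2 * d - j) (by omega)
          have e' := hs' (2 * d - j) (by omega)
          rw [show 2 * d - (2 * d - j) = j by omega] at e e'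
          have ho : (2 * d - j) % 2 = 1 := by
            have := Nat.odd_iff.1 h
            omega
          rw [e, e', hodd (2 * d - j) (by omega) ho, sub_self]
      rw [h0, mul_zero, mul_zero]
  have hw : ∑ j ∈ Finset.range (2 * d + 1),
      (((j : ℚ) - d) ^ 2 - ((j0 : ℚ) - d) ^ 2) * (b j - b' j) = 0 := by
    have e1 : ∑ j ∈ Finset.range (2 * d + 1), ((j : ℚ) - d) ^ 2 * (b j - b' j) = 0 := by
      rw [← sub_eq_zero, ← Finset.sum_sub_distrib] at hmom
      rw [← hmom]
      refine Finset.sum_congr rfl (fun j hj => ?_)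
      rw [Finset.mem_range] at hj
      rw [← hpar j (by omega)]
      ring
    have e2 : ∑ j ∈ Finset.range (2 * d + 1), (b j - b' j) = 0 := by
      rw [Finset.sum_sub_distrib, htot, sub_self]
    have e3 : ∑ j ∈ Finset.range (2 * d + 1),
        (((j : ℚ) - d) ^ 2 - ((j0 : ℚ) - d) ^ 2) * (b j - b' j) =
        ∑ j ∈ Finset.range (2 * d + 1), ((j : ℚ) - d) ^ 2 * (b j - b' j) -
          ((j0 : ℚ) - d) ^ 2 * ∑ j ∈ Finset.range (2 * d + 1), (b j - b' j) := by
      rw [Finset.mul_sum, ← Finset.sum_sub_distrib]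
      exact Finset.sum_congr rfl (fun j _ => by ring)
    rw [e3, e1, e2]
    ring
  have hsub : ({2, 2 * d - 2} : Finset ℕ) ⊆ Finset.range (2 * d + 1) := by
    intro j hj
    rw [Finset.mem_insert, Finset.mem_singleton] at hj
    rw [Finset.mem_range]
    omega
  rw [← Finset.sum_subset hsub] at hw
  · rw [Finset.sum_pair (by omega)] at hw
    have e := hs 2 (by omega)
    have e' := hs' 2 (by omega)
    rw [e, e'] at hw
    have c1 : ((2 * d - 2 : ℕ) : ℚ) = 2 * d - 2 := by
      rw [Nat.cast_sub (by omega)]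
      push_cast
      ring
    rw [c1] at hw
    have hpos : (0 : ℚ) < (2 - (d : ℚ)) ^ 2 - ((j0 : ℚ) - d) ^ 2 := by
      have h3 : (2 : ℚ) < j0 := by exact_mod_cast h2
      have h4 : (j0 : ℚ) ≤ d := by exact_mod_cast hj0
      nlinarith
    have h5 : ((2 - (d : ℚ)) ^ 2 - ((j0 : ℚ) - d) ^ 2) * (b 2 - b' 2) = 0 := by
      push_cast at hw
      linarith
    rcases mul_eq_zero.1 h5 with h6 | h6
    · exact absurd h6 hpos.ne'
    · linarith
  · intro j hj hj'
    rw [Finset.mem_range] at hj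
    rw [Finset.mem_insert, Finset.mem_singleton, not_or] at hj'
    by_cases h3 : j = j0 ∨ j = 2 * d - j0
    · have h4 : ((j : ℚ) - d) ^ 2 - ((j0 : ℚ) - d) ^ 2 = 0 := by
        rcases h3 with h3 | h3
        · rw [h3, sub_self]
        · have c1 : (j : ℚ) = 2 * d - j0 := by
            rw [h3, Nat.cast_sub (by omega)]
            push_cast
            ring
          rw [c1]
          ring
      rw [h4, zero_mul]
    · rw [not_or] at h3
      rw [hδ j (by omega) hj'.1 hj'.2 h3.1 h3.2, mul_zero]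

variable {R W : Type*} [Ring R] [Algebra ℚ R] [AddCommGroup W] [Module R W]
  {q : W →+ W →+ ℝ} {d : ℕ}

/-- the conclusions of `Pkg.core` -/
structure CoreEq (P P' : Pkg R W q d) : Prop where
  blk : ∀ a, MvN (P.B a) (P'.B a)
  dual : ∀ j ≤ d, MvN (P.π j) (P'.π j) → MvN (P.π (2 * d - j)) (P'.π (2 * d - j))
  cancel : ∀ j ≤ d, (∀ i ≤ d, i ≠ j → block d i = block d j → MvN (P.π i) (P'.π i)) →
    MvN (P.π j) (P'.π j)

/-- the condition on the degrees of parity `e` -/
def Cond (P : Pkg R W q d) (K : Set ℕ) (e : ℕ) : Prop :=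
  (∀ i ≤ d, ∀ j ≤ d, i % 2 = e → j % 2 = e → block d i = block d j → i ∉ K → j ∉ K → i = j) ∨
    (e ∈ K ∧ ∀ j, 1 < j → j < d → j % 2 = e → ∀ x : W, P.π j • x = x →
      P.L ^ (d - j + 1) • x = 0 → x = 0)

/-- One parity. -/
theorem parity [Module.Finite ℚ R] [FaithfulSMul R W] {P P' : Pkg R W q d}
    (hreg : ∀ x : R, ∃ z : R, x * z * x = x) (c : CoreEq P P') (K : Set ℕ)
    (hK : ∀ i ∈ K, MvN (P.π i) (P'.π i)) {e : ℕ} (he : e < 2) (h : Cond P K e) :
    ∀ j ≤ 2 * d, j % 2 = e → MvN (P.π j) (P'.π j) := by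
  have key : ∀ j ≤ d, j % 2 = e → MvN (P.π j) (P'.π j) := by
    intro j hj hje
    rcases h with ha | ⟨hb1, hb⟩
    · by_cases hjK : j ∈ K
      · exact hK j hjK
      · refine c.cancel j hj (fun i hi hij hbl => ?_)
        by_cases hiK : i ∈ K
        · exact hK i hiK
        · exact absurd (ha i hi j hj ((block_parity hi hj hbl).trans hje) hje hbl hiK hjK) hij
    · have hlt : ∀ i, i < d → i % 2 = e → MvN (P.π i) (P'.π i) := by
        intro i hi hij
        refine exists_equiv_of_tr_eq hreg _ _ (P.π_self i) (P'.π_self i) (fun p hp => ?_)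
        refine squeeze (fun j => tr p (P.π j)) (fun j => tr p (P'.π j)) d e he
          ((hK e hb1).tr_eq p) (fun j hj => Pkg'.tr_mono P' p hp hj) ?_ ?_ i hi hij
        · intro k hk1 hk2 hk3
          have h1 := Pkg'.tr_stable P p (j := k - 2) (by omega) (by
            rw [show k - 2 + 2 = k by omega]
            exact hb k hk1 hk2 hk3)
          rw [show k - 2 + 2 = k by omega] at h1
          exact h1
        · intro a
          have h1 := (c.blk a).tr_eq p
          rw [P.tr_B, P'.tr_B] at h1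
          exact h1
      rcases Nat.lt_or_ge j d with h1 | h1
      · exact hlt j h1 hje
      · have h2 : j = d := le_antisymm hj h1
        refine c.cancel j hj (fun i hi hij hbl => hlt i (by omega) ?_)
        rw [block_parity hi hj hbl, hje]
  intro j hj hje
  rcases Nat.lt_or_ge d j with h1 | h1
  · have h2 := c.dual (2 * d - j) (by omega) (key (2 * d - j) (by omega) (by omega))
    rwa [show 2 * d - (2 * d - j) = j by omega] at h2
  · exact key j h1 hje

/-- There are no primitive classes in the even degrees between `2` and the middle. -/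
def Stable (P : Pkg R W q d) : Prop :=
  ∀ j, 2 < j → j < d → j % 2 = 0 → ∀ x : W, P.π j • x = x → P.L ^ (d - j + 1) • x = 0 → x = 0

/-- The operator `L` from degree `j` to degree `j + 2`. -/
theorem stable_aux [FaithfulSMul R W] (P : Pkg R W q d) {j : ℕ} (hj : j + 2 ≤ d)
    (hprim : ∀ x : W, P.π (j + 2) • x = x → P.L ^ (d - (j + 2) + 1) • x = 0 → x = 0) :
    ∃ m : R, P.L * m = P.π (j + 2) ∧ m * P.L = P.π j := by
  set M : R := P.θ j * (P.L ^ (d - j - 1) * P.π (j + 2)) with hM
  refine ⟨M, ?_, (Pkg'.down_up P hj).1⟩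
  refine FaithfulSMul.eq_of_smul_eq_smul (α := W) (fun w => ?_)
  have h2 : P.π (j + 2) • w - (P.L * M) • w = 0 := by
    refine hprim _ ?_ ?_
    · rw [smul_sub, ← mul_smul, ← mul_smul, P.π_self]
      congr 2
      have h3 : P.π (j + 2) * (P.L * M) = P.L * (P.π j * M) := by
        rw [← mul_assoc, ← P.L_π, mul_assoc]
      rw [h3, hM, ← mul_assoc (P.π j), P.π_θ j (by omega)]
    · rw [smul_sub, ← mul_smul, ← mul_smul, sub_eq_zero]
      congr 1
      have e1 : d - (j + 2) + 1 = d - j - 1 := by omega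
      have e2 : d - j - 1 + 1 = d - j := by omega
      rw [e1]
      have h3 : P.L ^ (d - j) * P.θ j = P.π (2 * d - j) := P.L_θ j (by omega)
      calc P.L ^ (d - j - 1) * P.π (j + 2)
          = P.π (2 * d - j) * (P.L ^ (d - j - 1) * P.π (j + 2)) := by
            rw [P.L_pow_π (d - j - 1) (j + 2), ← mul_assoc,
              show j + 2 + 2 * (d - j - 1) = 2 * d - j by omega, P.π_self]
        _ = P.L ^ (d - j) * P.θ j * (P.L ^ (d - j - 1) * P.π (j + 2)) := by rw [h3]
        _ = P.L ^ (d - j - 1) * (P.L * M) := by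
            rw [← mul_assoc (P.L ^ (d - j - 1)), ← pow_succ, e2, hM, mul_assoc]
  exact (sub_eq_zero.1 h2).symm

/-- The even degrees, if the degrees `0` and `2` are known and there are no primitive classes in the
even degrees between `2` and the middle. -/
theorem from_two [Module.Finite ℚ R] [FaithfulSMul R W] {P P' : Pkg R W q d}
    (hreg : ∀ x : R, ∃ z : R, x * z * x = x) (c : CoreEq P P') (h0 : MvN (P.π 0) (P'.π 0))
    (h2 : MvN (P.π 2) (P'.π 2)) (hst : Stable P) :
    ∀ j ≤ 2 * d, j % 2 = 0 → MvN (P.π j) (P'.π j) := by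
  have hlt : ∀ i, i < d → i % 2 = 0 → MvN (P.π i) (P'.π i) := by
    intro i hi hie
    rcases Nat.eq_zero_or_pos i with hi0 | hi0
    · rw [hi0]
      exact h0
    refine exists_equiv_of_tr_eq hreg _ _ (P.π_self i) (P'.π_self i) (fun p hp => ?_)
    have e0 := h0.tr_eq p
    have e2 := h2.tr_eq p
    have hsum : ∀ (Q : Pkg R W q d) (a : ℕ),
        ∑ j ∈ Finset.range (2 * d + 1), (if block d j = a then
          (if j = 0 then tr p (Q.π 2) else tr p (Q.π j)) else 0) =
        tr p (Q.B a) + (if block d 0 = a then tr p (Q.π 2) - tr p (Q.π 0) else 0) := by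
      intro Q a
      rw [Q.tr_B, Finset.sum_range_succ' _ (2 * d), Finset.sum_range_succ' _ (2 * d)]
      simp only [if_true, Nat.succ_ne_zero, if_false]
      split_ifs <;> ring
    have key := squeeze (fun j => if j = 0 then tr p (P.π 2) else tr p (P.π j))
      (fun j => if j = 0 then tr p (P'.π 2) else tr p (P'.π j)) d 0 (by norm_num)
      (by simp only [if_true]; exact e2) ?_ ?_ ?_ i hi hie
    · simpa only [if_neg (Nat.pos_iff_ne_zero.1 hi0)] using key
    · intro j hj
      rw [if_neg (show ¬ j + 2 = 0 by omega)]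
      split_ifs with h
      · rw [h]
      · exact Pkg'.tr_mono P' p hp hj
    · intro k hk1 hk2 hk3
      rw [if_neg (show ¬ k = 0 by omega)]
      split_ifs with h
      · rw [show k = 2 by omega]
      · have h1 := Pkg'.tr_stable P p (j := k - 2) (by omega) (by
          rw [show k - 2 + 2 = k by omega]
          exact hst k (by omega) hk2 hk3)
        rw [show k - 2 + 2 = k by omega] at h1
        exact h1
    · intro a
      rw [hsum P a, hsum P' a, (c.blk a).tr_eq p, e0, e2]
  have key : ∀ j ≤ d, j % 2 = 0 → MvN (P.π j) (P'.π j) := by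
    intro j hj hje
    rcases Nat.lt_or_ge j d with h1 | h1
    · exact hlt j h1 hje
    · have h3 : j = d := le_antisymm hj h1
      refine c.cancel j hj (fun i hi hij hbl => hlt i (by omega) ?_)
      rw [block_parity hi hj hbl, hje]
  intro j hj hje
  rcases Nat.lt_or_ge d j with h1 | h1
  · have h3 := c.dual (2 * d - j) (by omega) (key (2 * d - j) (by omega) (by omega))
    rwa [show 2 * d - (2 * d - j) = j by omega] at h3
  · exact key j h1 hje

section Tau

variable (τ : R →ₗ[ℚ] ℚ) (hτ : ∀ x y, τ (x * y) = τ (y * x))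

include hτ in
theorem tau_eq {e f : R} (h : MvN e f) : τ e = τ f := by
  obtain ⟨x, y, hxy, hyx, -⟩ := h
  rw [← hxy, ← hyx, hτ]

include hτ in
theorem tau_dual (P : Pkg R W q d) (j : ℕ) (hj : j ≤ d) : τ (P.π (2 * d - j)) = τ (P.π j) := by
  rw [← P.L_θ j hj, hτ]
  congr 1
  rw [← P.θ_π j hj, mul_assoc, show 2 * d - j = j + 2 * (d - j) by omega, ← P.L_pow_π,
    ← mul_assoc, mul_assoc, P.θ_L j hj]

theorem block_lt (d j : ℕ) : block d j < 5 := by
  unfold block
  split_ifs <;> norm_num

theorem tau_total (P : Pkg R W q d) :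
    ∑ j ∈ Finset.range (2 * d + 1), τ (P.π j) = ∑ a ∈ Finset.range 5, τ (P.B a) := by
  unfold Pkg.B
  simp only [map_sum]
  rw [Finset.sum_comm]
  refine Finset.sum_congr rfl (fun j _ => ?_)
  rw [Finset.sum_eq_single_of_mem (block d j) (Finset.mem_range.2 (block_lt d j))]
  · rw [if_pos rfl]
  · intro a _ ha
    rw [if_neg (Ne.symm ha), map_zero]

include hτ in
/-- Cancellation in a block, for the traces. -/
theorem tau_cancel {P P' : Pkg R W q d} (c : CoreEq P P') {j : ℕ} (hj : j ≤ d)
    (h : ∀ i ≤ d, i ≠ j → block d i = block d j → τ (P.π i) = τ (P'.π i)) :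
    τ (P.π j) = τ (P'.π j) := by
  have hB := tau_eq τ hτ (c.blk (block d j))
  unfold Pkg.B at hB
  simp only [map_sum] at hB
  have key : ∀ i ≤ 2 * d, i ≠ j → i ≠ 2 * d - j → block d i = block d j →
      τ (P.π i) = τ (P'.π i) := by
    intro i hi hij hij' hb
    rcases Nat.le_total i d with h1 | h1
    · exact h i h1 hij hb
    · have e1 := tau_dual τ hτ P (2 * d - i) (by omega)
      have e2 := tau_dual τ hτ P' (2 * d - i) (by omega)
      rw [show 2 * d - (2 * d - i) = i by omega] at e1 e2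
      rw [e1, e2]
      refine h _ (by omega) (by omega) ?_
      unfold block at hb ⊢
      split_ifs at hb ⊢ <;> omega
  have hsum : ∑ i ∈ Finset.range (2 * d + 1), (if block d i = block d j ∧ (i = j ∨ i = 2 * d - j)
      then (τ (P.π j) - τ (P'.π j)) else 0) = 0 := by
    rw [← sub_eq_zero, ← Finset.sum_sub_distrib] at hB
    refine Eq.trans (Finset.sum_congr rfl (fun i hi => ?_)) hB
    rw [Finset.mem_range] at hi
    by_cases hb : block d i = block d j
    · rw [if_pos hb, if_pos hb]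
      by_cases hij : i = j ∨ i = 2 * d - j
      · rw [if_pos ⟨hb, hij⟩]
        rcases hij with hij | hij
        · rw [hij]
        · rw [hij, tau_dual τ hτ P j hj, tau_dual τ hτ P' j hj]
      · rw [if_neg (fun h2 => hij h2.2)]
        rw [not_or] at hij
        rw [key i (by omega) hij.1 hij.2 hb, sub_self]
    · rw [if_neg hb, if_neg hb, if_neg (fun h2 => hb h2.1), map_zero, sub_self]
  rw [← Finset.sum_filter, Finset.sum_const, nsmul_eq_mul, mul_eq_zero] at hsum
  rcases hsum with h1 | h1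
  · exfalso
    rw [Nat.cast_eq_zero, Finset.card_eq_zero] at h1
    have h2 : j ∈ (Finset.range (2 * d + 1)).filter
        (fun i => block d i = block d j ∧ (i = j ∨ i = 2 * d - j)) := by
      rw [Finset.mem_filter, Finset.mem_range]
      exact ⟨by omega, rfl, Or.inl rfl⟩
    rw [h1] at h2
    exact absurd h2 (Finset.notMem_empty j)
  · linarith

/-- the even degrees outside `K` and `2` -/
def Even2 (d : ℕ) (K : Set ℕ) : Prop :=
  ∀ i ≤ d, ∀ j ≤ d, i % 2 = 0 → j % 2 = 0 → block d i = block d j → i ∉ K → j ∉ K →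
    i ≠ 2 → j ≠ 2 → i = j

include hτ in
/-- The traces agree in degree two. -/
theorem tau_two {P P' : Pkg R W q d} (c : CoreEq P P') (K : Set ℕ) (h0 : 0 ∈ K)
    (hK : ∀ i ∈ K, τ (P.π i) = τ (P'.π i))
    (hmom : ∑ j ∈ Finset.range (2 * d + 1), (-1 : ℚ) ^ j * ((j : ℚ) - d) ^ 2 * τ (P.π j) =
      ∑ j ∈ Finset.range (2 * d + 1), (-1 : ℚ) ^ j * ((j : ℚ) - d) ^ 2 * τ (P'.π j))
    (hev : Even2 d K) (ho : ∀ j ≤ d, j % 2 = 1 → τ (P.π j) = τ (P'.π j)) (hd : 2 ≤ d) :
    τ (P.π 2) = τ (P'.π 2) := by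
  by_cases hex : ∃ j0 ≤ d, j0 % 2 = 0 ∧ block d j0 = block d 2 ∧ j0 ∉ K ∧ j0 ≠ 2
  · obtain ⟨j0, hj0d, hj0e, hj0b, hj0K, hj02⟩ := hex
    have hj00 : j0 ≠ 0 := fun h => hj0K (h ▸ h0)
    refine two_of_moment (fun j => τ (P.π j)) (fun j => τ (P'.π j)) d
      (tau_dual τ hτ P) (tau_dual τ hτ P') ?_ hmom ho j0 (by omega) hj0d ?_
    · rw [tau_total, tau_total]
      exact Finset.sum_congr rfl (fun a _ => tau_eq τ hτ (c.blk a))
    · intro j hj hje hj2 hjj
      by_cases hjK : j ∈ K
      · exact hK j hjK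
      · refine tau_cancel τ hτ c hj (fun i hi hij hbl => ?_)
        by_cases hiK : i ∈ K
        · exact hK i hiK
        · exfalso
          have hie : i % 2 = 0 := (block_parity hi hj hbl).trans hje
          by_cases hi2 : i = 2
          · subst hi2
            exact hjj (hev j hj j0 hj0d hje hj0e (hbl.symm.trans hj0b.symm) hjK hj0K hj2 hj02)
          · exact hij (hev i hi j hj hie hje hbl hiK hjK hi2 hj2)
  · refine tau_cancel τ hτ c hd (fun i hi hij hbl => ?_)
    by_cases hiK : i ∈ K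
    · exact hK i hiK
    · exact absurd ⟨i, hi, (block_parity hi hd hbl), hbl, hiK, hij⟩ hex

include hτ in
theorem tau_stable [FaithfulSMul R W] (P : Pkg R W q d) {j : ℕ} (hj : j + 2 ≤ d)
    (hprim : ∀ x : W, P.π (j + 2) • x = x → P.L ^ (d - (j + 2) + 1) • x = 0 → x = 0) :
    τ (P.π (j + 2)) = τ (P.π j) := by
  obtain ⟨m, h1, h2⟩ := stable_aux P hj hprim
  rw [← h1, ← h2, hτ]

include hτ in
theorem tau_mono (hτ0 : ∀ e : R, e * e = e → 0 ≤ τ e) (P : Pkg R W q d) {j : ℕ}
    (hj : j + 2 ≤ d) : τ (P.π j) ≤ τ (P.π (j + 2)) := by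
  set M : R := P.θ j * (P.L ^ (d - j - 1) * P.π (j + 2)) with hM
  obtain ⟨h1, h2⟩ := Pkg'.down_up P hj
  rw [← hM] at h1 h2
  have hMπ : M * P.π (j + 2) = M := by
    rw [hM, mul_assoc, mul_assoc, P.π_self]
  have hπL : P.π (j + 2) * (P.L * P.π j) = P.L * P.π j := by
    rw [← mul_assoc, ← P.L_π, mul_assoc, P.π_self]
  set e : R := P.L * P.π j * M with he
  have e1 : P.π (j + 2) * e = e := by
    rw [he, ← mul_assoc, hπL]
  have e2 : e * P.π (j + 2) = e := by
    rw [he, mul_assoc, hMπ]
  have e3 : e * e = e := by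
    calc e * e = P.L * P.π j * (M * (P.L * P.π j)) * M := by rw [he]; simp only [mul_assoc]
      _ = e := by rw [h2, mul_assoc (P.L) (P.π j) (P.π j), P.π_self]
  have e4 : τ e = τ (P.π j) := by
    rw [he, hτ, h2]
  have e5 : 0 ≤ τ (P.π (j + 2) - e) := by
    apply hτ0
    rw [sub_mul, mul_sub, mul_sub, P.π_self, e1, e2, e3]
    abel
  rw [map_sub, e4] at e5
  linarith

include hτ in
/-- The traces agree in the even degrees, if there are no primitive classes in the even degrees
between `2` and the middle. -/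
theorem tau_even [FaithfulSMul R W] (hτ0 : ∀ e : R, e * e = e → 0 ≤ τ e) {P P' : Pkg R W q d}
    (c : CoreEq P P') (h0 : τ (P.π 0) = τ (P'.π 0)) (hst : Stable P)
    (hmom : ∑ j ∈ Finset.range (2 * d + 1), (-1 : ℚ) ^ j * ((j : ℚ) - d) ^ 2 * τ (P.π j) =
      ∑ j ∈ Finset.range (2 * d + 1), (-1 : ℚ) ^ j * ((j : ℚ) - d) ^ 2 * τ (P'.π j))
    (ho : ∀ j ≤ d, j % 2 = 1 → τ (P.π j) = τ (P'.π j)) :
    ∀ j ≤ d, j % 2 = 0 → τ (P.π j) = τ (P'.π j) := by
  have hs : ∀ j ≤ d, τ (P.π (2 * d - j)) - τ (P'.π (2 * d - j)) = τ (P.π j) - τ (P'.π j) := by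
    intro j hj
    rw [tau_dual τ hτ P j hj, tau_dual τ hτ P' j hj]
  have hodd : ∀ j ≤ 2 * d, j % 2 = 1 → τ (P.π j) - τ (P'.π j) = 0 := by
    intro j hj hje
    rcases Nat.le_total j d with h | h
    · rw [ho j h hje, sub_self]
    · have h1 := hs (2 * d - j) (by omega)
      rw [show 2 * d - (2 * d - j) = j by omega] at h1
      rw [h1, ho (2 * d - j) (by omega) (by omega), sub_self]
  have key := even_zero (fun j => τ (P.π j) - τ (P'.π j)) d hs
    (fun j hj hje => hodd j (by omega) hje) (by rw [h0, sub_self]) (by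
      intro j hje hj hjd
      have h1 := tau_stable τ hτ P (j := j) (by omega) (hst (j + 2) (by omega) hjd (by omega))
      have h2 := tau_mono τ hτ hτ0 P' (j := j) (by omega)
      linarith) (by
      intro a
      have hB := tau_eq τ hτ (c.blk a)
      unfold Pkg.B at hB
      simp only [map_sum] at hB
      rw [← sub_eq_zero, ← Finset.sum_sub_distrib] at hB
      refine Eq.trans (Finset.sum_congr rfl (fun i _ => ?_)) hB
      split_ifs <;> simp) (by
      rw [← sub_eq_zero, ← Finset.sum_sub_distrib] at hmom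
      refine Eq.trans (Finset.sum_congr rfl (fun j hj => ?_)) hmom
      rw [Finset.mem_range] at hj
      rcases Nat.mod_two_eq_zero_or_one j with h | h
      · rw [(Nat.even_iff.2 h).neg_one_pow]
        ring
      · have h1 := hodd j (by omega) h
        rw [h1, mul_zero]
        have h2 : (-1 : ℚ) ^ j * ((j : ℚ) - d) ^ 2 * τ (P.π j) -
            (-1 : ℚ) ^ j * ((j : ℚ) - d) ^ 2 * τ (P'.π j) =
            (-1 : ℚ) ^ j * ((j : ℚ) - d) ^ 2 * (τ (P.π j) - τ (P'.π j)) := by ring
        rw [h2, h1, mul_zero])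
  intro j hj hje
  rcases Nat.lt_or_ge j d with h1 | h1
  · exact sub_eq_zero.1 (key j h1 hje)
  · have h3 : j = d := le_antisymm hj h1
    refine tau_cancel τ hτ c hj (fun i hi hij hbl => sub_eq_zero.1 (key i (by omega) ?_))
    rw [block_parity hi hj hbl, hje]

/-- The condition on the even degrees. -/
def EvenCond (P : Pkg R W q d) (K : Set ℕ) : Prop := Even2 d K ∨ Stable P

include hτ in
/-- The traces agree in all degrees. -/
theorem tau_all [Module.Finite ℚ R] [FaithfulSMul R W] (hτ0 : ∀ e : R, e * e = e → 0 ≤ τ e)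
    {P P' : Pkg R W q d}
    (hreg : ∀ x : R, ∃ z : R, x * z * x = x) (c : CoreEq P P') (K : Set ℕ) (h0 : 0 ∈ K)
    (hK : ∀ i ∈ K, MvN (P.π i) (P'.π i))
    (hmom : ∑ j ∈ Finset.range (2 * d + 1), (-1 : ℚ) ^ j * ((j : ℚ) - d) ^ 2 * τ (P.π j) =
      ∑ j ∈ Finset.range (2 * d + 1), (-1 : ℚ) ^ j * ((j : ℚ) - d) ^ 2 * τ (P'.π j))
    (hev : EvenCond P K) (hodd : Cond P K 1) : ∀ j ≤ 2 * d, τ (P.π j) = τ (P'.π j) := by
  have ho := parity hreg c K hK (by norm_num) hodd
  have ho' : ∀ j ≤ d, j % 2 = 1 → τ (P.π j) = τ (P'.π j) :=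
    fun j hj hje => tau_eq τ hτ (ho j (by omega) hje)
  have key : ∀ j ≤ d, τ (P.π j) = τ (P'.π j) := by
    intro j hj
    rcases Nat.mod_two_eq_zero_or_one j with hje | hje
    · rcases hev with hev | hev
      · have h2 := tau_two τ hτ c K h0 (fun i hi => tau_eq τ hτ (hK i hi)) hmom hev ho'
        by_cases hjK : j ∈ K
        · exact tau_eq τ hτ (hK j hjK)
        · by_cases hj2 : j = 2
          · rw [hj2]
            exact h2 (by omega)
          · refine tau_cancel τ hτ c hj (fun i hi hij hbl => ?_)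
            by_cases hiK : i ∈ K
            · exact tau_eq τ hτ (hK i hiK)
            · by_cases hi2 : i = 2
              · rw [hi2]
                exact h2 (by omega)
              · exact absurd (hev i hi j hj ((block_parity hi hj hbl).trans hje) hje hbl hiK hjK
                  hi2 hj2) hij
      · exact tau_even τ hτ hτ0 c (tau_eq τ hτ (hK 0 h0)) hev hmom ho' j hj hje
    · exact ho' j hj hje
  intro j hj
  rcases Nat.lt_or_ge d j with h1 | h1
  · have e1 := tau_dual τ hτ P (2 * d - j) (by omega)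
    have e2 := tau_dual τ hτ P' (2 * d - j) (by omega)
    rw [show 2 * d - (2 * d - j) = j by omega] at e1 e2
    rw [e1, e2]
    exact key _ (by omega)
  · exact key j h1

include hτ in
/-- All degrees, if the degree two is known as soon as its trace is, and the traces satisfy the
moment relation. -/
theorem all_of_moment [Module.Finite ℚ R] [FaithfulSMul R W] (hτ0 : ∀ e : R, e * e = e → 0 ≤ τ e)
    {P P' : Pkg R W q d}
    (hreg : ∀ x : R, ∃ z : R, x * z * x = x) (c : CoreEq P P') (K : Set ℕ) (h0 : 0 ∈ K)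
    (hK : ∀ i ∈ K, MvN (P.π i) (P'.π i))
    (hmom : ∑ j ∈ Finset.range (2 * d + 1), (-1 : ℚ) ^ j * ((j : ℚ) - d) ^ 2 * τ (P.π j) =
      ∑ j ∈ Finset.range (2 * d + 1), (-1 : ℚ) ^ j * ((j : ℚ) - d) ^ 2 * τ (P'.π j))
    (h2 : 2 ≤ d → τ (P.π 2) = τ (P'.π 2) → MvN (P.π 2) (P'.π 2))
    (hev : EvenCond P K) (hodd : Cond P K 1) :
    ∀ j ≤ 2 * d, MvN (P.π j) (P'.π j) := by
  have ho := parity hreg c K hK (by norm_num) hodd
  have ht := tau_all τ hτ hτ0 hreg c K h0 hK hmom hev hodd
  intro j hj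
  rcases Nat.mod_two_eq_zero_or_one j with hje | hje
  · by_cases hd : 2 ≤ d
    · rcases hev with hev | hev
      · refine parity hreg c (insert 2 K) ?_ (by norm_num) (Or.inl ?_) j hj hje
        · intro i hi
          rcases Set.mem_insert_iff.1 hi with h | h
          · rw [h]
            exact h2 hd (ht 2 (by omega))
          · exact hK i h
        · intro i hi j hj hie hje hb hiK hjK
          rw [Set.mem_insert_iff, not_or] at hiK hjK
          exact hev i hi j hj hie hje hb hiK.2 hjK.2 hiK.1 hjK.1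
      · exact from_two hreg c (hK 0 h0) (h2 hd (ht 2 (by omega))) hev j hj hje
    · refine parity hreg c K hK (by norm_num) (Or.inl ?_) j hj hje
      intro i hi j hj hie hje hb hiK hjK
      have hi0 : i ≠ 0 := fun h => hiK (h ▸ h0)
      omega
  · exact ho j hj hje

end Tau

end Pool.Agent.Lib.OrlovSix
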