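import Pool.Agent.Lib.OrlovChow.Main
import Pool.Agent.Lib.OrlovFive.Main

/-!
# Algebraic classes of degree two

If the exterior products of the classes in `H^i(X)` and `H^i(X')` are correspondences, then every map
`H^(2d-i)(X) → H^i(X')` is one.  This gives the Lefschetz standard conjecture in degree `i`, and an
isomorphism of `H^i(X)` and `H^i(X')` if they have the same dimension.
-/

set_option autoImplicit false

open CategoryTheory
open scoped TensorProduct ComplexOrder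

namespace Pool.Agent.Lib.OrlovSix

open Pool.Agent.Lib.OrlovSig Pool.Agent.Lib.MP_5c0b30_ag Pool.Agent.Lib.OrlovChow

universe v u w

variable {C : Type u} [Category.{v} C] [Preadditive C] [HasShift C ℤ]
  {W : C → Type w} [∀ X, AddCommGroup (W X)] [∀ X, Module ℚ (W X)]

/-- Exterior products: for `a ∈ H^i(X)` and `b ∈ H^i(X')` the map `x ↦ (∫ a ∪ x) b` is given by a
morphism `M ⟶ M'⟦i - d⟧` (the correspondence `a × b`, if `a` and `b` are algebraic). -/
def Products (T : TotalRealization C W) {d : ℕ} {M M' : C} (X : HodgeLefschetz d (W M))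
    (X' : HodgeLefschetz d (W M')) (i : ℕ) : Prop :=
  ∀ (a : W M) (b : W M'), X.pr i a = a → X'.pr i b = b →
    ∃ f : M ⟶ M'⟦(i : ℤ) - d⟧, ∀ x : W M, T.act f x = X.pair a x • b

/-- The exterior products of two classes of degree `i` of `X` or `X'` are given by morphisms. -/
structure ExtProducts (T : TotalRealization C W) {d : ℕ} {M M' : C} (X : HodgeLefschetz d (W M))
    (X' : HodgeLefschetz d (W M')) (i : ℕ) : Prop where
  p₁₁ : Products T X X i
  p₁₂ : Products T X X' i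
  p₂₁ : Products T X' X i
  p₂₂ : Products T X' X' i

/-- The Hodge-Lefschetz datum `X` on the cohomology of `M` is compatible with the realization, `lef`
and `can` are given by morphisms `M ⟶ M⟦1⟧`, and the Lefschetz standard conjecture holds except
possibly in degree `2`. -/
structure StandardExceptTwo (T : TotalRealization C W) {d : ℕ} {M : C}
    (X : HodgeLefschetz d (W M)) : Prop where
  deg_pr : ∀ (j : ℕ) (x : W M), T.deg M (X.pr j x) = ((j : ℚ) / 2) • X.pr j x
  lef_alg : ∃ f : M ⟶ M⟦(1 : ℤ)⟧, T.act f = X.lef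
  can_alg : ∃ f : M ⟶ M⟦(1 : ℤ)⟧, T.act f = X.can
  inverse : ∀ j < d, j ≠ 2 → ∃ f : M ⟶ M⟦(j : ℤ) - d⟧, ∀ x : W M,
    T.act f ((X.lef ^ (d - j)) (X.pr j x)) = X.pr j x

variable {T : TotalRealization C W} {d : ℕ} {M M' : C} {X : HodgeLefschetz d (W M)}
  {X' : HodgeLefschetz d (W M')}

/-- Every map `H^(2d-i)(X) → H^i(X')` is given by a morphism. -/
theorem exists_morphism [FiniteDimensional ℚ (W M)] [FiniteDimensional ℚ (W M')] {i : ℕ}
    (hi : i ≤ 2 * d) (h : Products T X X' i) (F : W M →ₗ[ℚ] W M') (h1 : X'.pr i ∘ₗ F = F)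
    (h2 : F ∘ₗ X.pr (2 * d - i) = F) : ∃ f : M ⟶ M'⟦(i : ℤ) - d⟧, T.act f = F := by
  have hF : ∀ x, X'.pr i (F x) = F x := fun x => LinearMap.congr_fun h1 x
  have hF2 : ∀ x, F (X.pr (2 * d - i) x) = F x := fun x => LinearMap.congr_fun h2 x
  set U : Submodule ℚ (W M') := LinearMap.range (X'.pr i) with hU
  have hUm : ∀ x, F x ∈ U := fun x => ⟨F x, hF x⟩
  set G : W M →ₗ[ℚ] U := F.codRestrict U hUm with hG
  set v := Module.finBasis ℚ U with hv
  have hrep : ∀ φ : W M →ₗ[ℚ] ℚ, ∃ z, ∀ x, φ x = X.pair z x := by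
    intro φ
    have h3 : Function.Bijective X.pair := LinearMap.flip_bijective_iff₁.1 X.pair_flip_bijective
    obtain ⟨z, hz⟩ := h3.2 φ
    exact ⟨z, fun x => by rw [hz]⟩
  choose z hz using fun k => hrep (v.coord k ∘ₗ G)
  have hvU : ∀ k, X'.pr i ((v k : U) : W M') = ((v k : U) : W M') := by
    intro k
    obtain ⟨y, hy⟩ := (v k).2
    rw [← hy]
    exact LinearMap.congr_fun (X'.pr_self i) y
  have hpp : ∀ x : W M, X.pr i (X.pr i x) = X.pr i x := fun x => LinearMap.congr_fun (X.pr_self i) x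
  choose f hf using fun k => h (X.pr i (z k)) ((v k : U) : W M') (hpp _) (hvU k)
  refine ⟨∑ k, f k, ?_⟩
  rw [T.act_sum]
  apply LinearMap.ext
  intro x
  rw [LinearMap.sum_apply]
  have h4 : ∀ k, T.act (f k) x = ((v.repr (G x) k) • (v k : U) : U) := by
    intro k
    rw [hf k, X.pair_pr i hi, ← hz k]
    have h5 : G (X.pr (2 * d - i) x) = G x := Subtype.ext (hF2 x)
    rw [LinearMap.comp_apply, h5, Module.Basis.coord_apply]
    rfl
  rw [Finset.sum_congr rfl (fun k _ => h4 k), ← Submodule.coe_sum, v.sum_repr]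
  rfl

/-- the powers of `lef` are given by morphisms -/
theorem lef_pow_alg (hl : ∃ f : M ⟶ M⟦(1 : ℤ)⟧, T.act f = X.lef) (k : ℕ) :
    ∃ f : M ⟶ M⟦(k : ℤ)⟧, T.act f = X.lef ^ k := by
  obtain ⟨g, hg⟩ := hl
  induction k with
  | zero =>
    refine ⟨ShiftedHom.mk₀ ((0 : ℕ) : ℤ) rfl (𝟙 M), ?_⟩
    rw [pow_zero]
    exact T.act_id M
  | succ k ih =>
    obtain ⟨f, hf⟩ := ih
    refine ⟨ShiftedHom.comp f g (show (1 : ℤ) + (k : ℤ) = ((k + 1 : ℕ) : ℤ) by
      push_cast; ring), ?_⟩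
    rw [T.act_comp, hf, hg, pow_succ']
    rfl

/-- The whole Lefschetz standard conjecture. -/
theorem StandardExceptTwo.standard [FiniteDimensional ℚ (W M)] (s : StandardExceptTwo T X)
    (h : Products T X X 2) : Standard T X where
  deg_pr := s.deg_pr
  lef_alg := s.lef_alg
  can_alg := s.can_alg
  inverse := by
    intro j hj
    by_cases hjd : j = d
    · subst hjd
      have h0 : ∀ n : ℤ, 0 = n → ∃ f : M ⟶ M⟦n⟧, T.act f = LinearMap.id := by
        intro n hn
        subst hn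
        exact ⟨_, T.act_id M⟩
      obtain ⟨f, hf⟩ := h0 ((j : ℤ) - j) (by ring)
      exact ⟨f, fun x => by rw [hf, Nat.sub_self, pow_zero]; rfl⟩
    · by_cases hj2 : j = 2
      · subst hj2
        obtain ⟨θ, -, e1, -, e3, e4⟩ := X.exists_theta 2 hj
        obtain ⟨f, hf⟩ := exists_morphism (by omega) h θ e3 e4
        exact ⟨f, fun x => by rw [hf]; exact LinearMap.congr_fun e1 x⟩
      · exact s.inverse j (by omega) hj2

/-- A map between `H^i(X)` and `H^i(X')`, as a morphism of degree zero. -/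
theorem exists_zero [FiniteDimensional ℚ (W M)] [FiniteDimensional ℚ (W M')] {i : ℕ}
    (hi : i ≤ d) (hl : ∃ f : M ⟶ M⟦(1 : ℤ)⟧, T.act f = X.lef) (h : Products T X X' i)
    (F : W M →ₗ[ℚ] W M') (h1 : X'.pr i ∘ₗ F = F) :
    ∃ a : M ⟶ M', ∀ x, T.act (ShiftedHom.mk₀ (0 : ℤ) rfl a) (X.pr i x) = F (X.pr i x) := by
  obtain ⟨θ, -, e1, -, e3, e4⟩ := X.exists_theta i hi
  obtain ⟨f, hf⟩ := exists_morphism (by omega) h (F ∘ₗ θ) (by rw [← LinearMap.comp_assoc, h1])
    (by rw [LinearMap.comp_assoc]; exact congrArg (fun g => F ∘ₗ g) e4)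
  obtain ⟨g, hg⟩ := lef_pow_alg hl (d - i)
  have hz : (i : ℤ) - d + ((d - i : ℕ) : ℤ) = 0 := by
    rw [Nat.cast_sub hi]
    ring
  refine ⟨(ShiftedHom.homEquiv (0 : ℤ) rfl).symm (ShiftedHom.comp g f hz), fun x => ?_⟩
  have h2 : ShiftedHom.mk₀ (0 : ℤ) rfl ((ShiftedHom.homEquiv (0 : ℤ) rfl).symm
      (ShiftedHom.comp g f hz)) = ShiftedHom.comp g f hz :=
    (ShiftedHom.homEquiv (0 : ℤ) rfl).apply_symm_apply _
  rw [h2, T.act_comp, hg, hf, LinearMap.comp_apply, LinearMap.comp_apply]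
  congr 1
  exact LinearMap.congr_fun e1 x

/-- `H^i(X)` and `H^i(X')` are isomorphic by algebraic maps if they have the same dimension. -/
theorem algIso_of_betti [FiniteDimensional ℚ (W M)] [FiniteDimensional ℚ (W M')] {i : ℕ}
    (hi : i ≤ d) (hl : ∃ f : M ⟶ M⟦(1 : ℤ)⟧, T.act f = X.lef)
    (hl' : ∃ f : M' ⟶ M'⟦(1 : ℤ)⟧, T.act f = X'.lef) (h : Products T X X' i)
    (h' : Products T X' X i) (hb : X.betti i = X'.betti i) : AlgIso T X X' i := by
  set G := LinearEquiv.ofFinrankEq (LinearMap.range (X.pr i)) (LinearMap.range (X'.pr i)) hb with hG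
  have hpp : ∀ x : W M, X.pr i (X.pr i x) = X.pr i x := fun x => LinearMap.congr_fun (X.pr_self i) x
  have hpp' : ∀ x : W M', X'.pr i (X'.pr i x) = X'.pr i x :=
    fun x => LinearMap.congr_fun (X'.pr_self i) x
  set F : W M →ₗ[ℚ] W M' := (LinearMap.range (X'.pr i)).subtype ∘ₗ G.toLinearMap ∘ₗ
    (X.pr i).rangeRestrict with hF
  set F' : W M' →ₗ[ℚ] W M := (LinearMap.range (X.pr i)).subtype ∘ₗ G.symm.toLinearMap ∘ₗ
    (X'.pr i).rangeRestrict with hF'
  have fixed : ∀ u : LinearMap.range (X.pr i), X.pr i (u : W M) = u := by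
    rintro ⟨_, ⟨y, rfl⟩⟩
    exact hpp y
  have fixed' : ∀ u : LinearMap.range (X'.pr i), X'.pr i (u : W M') = u := by
    rintro ⟨_, ⟨y, rfl⟩⟩
    exact hpp' y
  have hF1 : X'.pr i ∘ₗ F = F := LinearMap.ext fun x => fixed' _
  have hF1' : X.pr i ∘ₗ F' = F' := LinearMap.ext fun x => fixed _
  obtain ⟨a, ha⟩ := exists_zero hi hl h F hF1
  obtain ⟨b, hb'⟩ := exists_zero hi hl' h' F' hF1'
  have rr : ∀ u : LinearMap.range (X.pr i), (X.pr i).rangeRestrict (u : W M) = u := fun u =>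
    Subtype.ext (fixed u)
  have rr' : ∀ u : LinearMap.range (X'.pr i), (X'.pr i).rangeRestrict (u : W M') = u := fun u =>
    Subtype.ext (fixed' u)
  refine ⟨a, b, fun x => ?_, fun y => ?_⟩
  · rw [ha]
    have h3 : F (X.pr i x) = X'.pr i (F (X.pr i x)) := (LinearMap.congr_fun hF1 _).symm
    rw [h3, hb', ← h3]
    change ((G.symm ((X'.pr i).rangeRestrict ((G ((X.pr i).rangeRestrict (X.pr i x)) :
      LinearMap.range (X'.pr i)) : W M')) : LinearMap.range (X.pr i)) : W M) = X.pr i x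
    rw [rr', LinearEquiv.symm_apply_apply]
    exact hpp x
  · rw [hb']
    have h3 : F' (X'.pr i y) = X.pr i (F' (X'.pr i y)) := (LinearMap.congr_fun hF1' _).symm
    rw [h3, ha, ← h3]
    change ((G ((X.pr i).rangeRestrict ((G.symm ((X'.pr i).rangeRestrict (X'.pr i y)) :
      LinearMap.range (X.pr i)) : W M)) : LinearMap.range (X'.pr i)) : W M') = X'.pr i y
    rw [rr, LinearEquiv.apply_symm_apply]
    exact hpp' y

end Pool.Agent.Lib.OrlovSix
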