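import Pool.Agent.Lib.OrlovSix.Hodge
import Pool.Agent.Lib.OrlovSix.Prod
import Pool.Agent.Lib.OrlovChow.Iso

/-!
# All degrees from the relation of Libgober and Wood, for algebraic maps
-/

set_option autoImplicit false

open CategoryTheory
open scoped TensorProduct ComplexOrder

namespace Pool.Agent.Lib.OrlovSix

open Pool.Agent.Lib.OrlovSig Pool.Agent.Lib.MP_5c0b30_ag Pool.Agent.Lib.OrlovChow HodgeLefschetz

universe v u w

variable {C : Type u} [Category.{v} C] [Preadditive C] [HasShift C ℤ]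
  {W : C → Type w} [∀ X, AddCommGroup (W X)] [∀ X, Module ℚ (W X)]
  {T : TotalRealization C W} {d : ℕ} {M M' : C} {X : HodgeLefschetz d (W M)}
  {X' : HodgeLefschetz d (W M')}

section Fin

variable [FiniteDimensional ℚ (W M)] [FiniteDimensional ℚ (W M')]

/-- The conclusions of `Pkg.core` in the ring of algebraic maps. -/
theorem core_alg (s : Standard T X) (s' : Standard T X') (h11 : Corr T X X)
    (h12 : Corr T X X') (h21 : Corr T X' X) (h22 : Corr T X' X') (u : W M ≃ₗ[ℚ] W M')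
    (hu : u.toLinearMap ∈ T.alg M M') (hu' : u.symm.toLinearMap ∈ T.alg M' M)
    (hm : ∀ x y, X'.mukai (u x) (u y) = X.mukai x y) :
    CoreEq (P₁ s h11 X') (P₂ X s' h22) := by
  obtain ⟨w, hw, hwm, hwm', hiso⟩ := exists_isometry_alg s s' u hu hu' (h12.isHodge hu) hm
  obtain ⟨c1, c2, c3⟩ := Pkg.core (P₁ s h11 X') (P₂ X s' h22) (X.qq_symm X')
    (regular_alg s s' h11 h12 h21 h22)
    ⟨_, mem_algRing.2 (blk21 hwm)⟩ ⟨_, mem_algRing.2 (blk12 hwm')⟩
    (by
      refine Subtype.ext ?_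
      change (LinearMap.inl ℚ (W M) (W M') ∘ₗ w.symm.toLinearMap ∘ₗ
        LinearMap.snd ℚ (W M) (W M')) ∘ₗ
        (LinearMap.inr ℚ (W M) (W M') ∘ₗ w.toLinearMap ∘ₗ LinearMap.fst ℚ (W M) (W M')) = _
      rw [coe_P₁_ε]
      ext x <;> simp)
    (by
      refine Subtype.ext ?_
      change (LinearMap.inr ℚ (W M) (W M') ∘ₗ w.toLinearMap ∘ₗ
        LinearMap.fst ℚ (W M) (W M')) ∘ₗ
        (LinearMap.inl ℚ (W M) (W M') ∘ₗ w.symm.toLinearMap ∘ₗ
          LinearMap.snd ℚ (W M) (W M')) = _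
      rw [coe_P₂_ε]
      ext x <;> simp)
    (by
      refine Subtype.ext ?_
      change (LinearMap.inr ℚ (W M) (W M') ∘ₗ w.toLinearMap ∘ₗ
        LinearMap.fst ℚ (W M) (W M')) ∘ₗ
        ((P₁ s h11 X').E : Module.End ℚ (W M × W M')) =
        ((P₂ X s' h22).E : Module.End ℚ (W M × W M')) ∘ₗ
        (LinearMap.inr ℚ (W M) (W M') ∘ₗ w.toLinearMap ∘ₗ LinearMap.fst ℚ (W M) (W M'))
      rw [coe_P₁_E, coe_P₂_E]
      have h := parE_comm hw
      have h' := LinearMap.congr_fun h
      simp only [LinearMap.comp_apply, LinearEquiv.coe_coe] at h'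
      ext x <;> simp [h'])
    (by
      refine Subtype.ext ?_
      change (LinearMap.inl ℚ (W M) (W M') ∘ₗ w.symm.toLinearMap ∘ₗ
        LinearMap.snd ℚ (W M) (W M')) ∘ₗ
        ((P₂ X s' h22).E : Module.End ℚ (W M × W M')) =
        ((P₁ s h11 X').E : Module.End ℚ (W M × W M')) ∘ₗ
        (LinearMap.inl ℚ (W M) (W M') ∘ₗ w.symm.toLinearMap ∘ₗ LinearMap.snd ℚ (W M) (W M'))
      rw [coe_P₁_E, coe_P₂_E]
      have h := parE_comm (hw.symm w)
      have h' := LinearMap.congr_fun h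
      simp only [LinearMap.comp_apply, LinearEquiv.coe_coe] at h'
      ext x <;> simp [h'])
    (by
      intro x hx
      have hE : ((P₁ s h11 X').E • x) = (X.parE x.1, 0) := by
        change ((P₁ s h11 X').E : Module.End ℚ (W M × W M')) x = _
        rw [coe_P₁_E]
        ext <;> simp
      have hx1 : X.parE x.1 = x.1 := by
        have := congrArg Prod.fst (hE.symm.trans hx)
        exact this
      have hwx : X'.parE (w x.1) = w x.1 := by
        have h1 := LinearMap.congr_fun (parE_comm hw) x.1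
        rw [LinearMap.comp_apply, LinearMap.comp_apply, hx1] at h1
        exact h1
      have e1 : ((⟨_, mem_algRing.2 (blk21 hwm)⟩ : algRing T M M') • x) = (0, w x.1) := by
        change (LinearMap.inr ℚ (W M) (W M') ∘ₗ w.toLinearMap ∘ₗ
          LinearMap.fst ℚ (W M) (W M')) x = _
        ext <;> simp
      have e2 : ((P₂ X s' h22).DE • ((0, w x.1) : W M × W M')) = (0, X'.dual (w x.1)) := by
        change ((P₂ X s' h22).DE : Module.End ℚ (W M × W M')) (0, w x.1) = _
        rw [coe_P₂_DE]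
        ext
        · simp
        · simp [X'.parD_eq _ hwx]
      have e3 : ((P₁ s h11 X').DE • x) = (X.dual x.1, 0) := by
        change ((P₁ s h11 X').DE : Module.End ℚ (W M × W M')) x = _
        rw [coe_P₁_DE]
        ext
        · simp [X.parD_eq _ hx1]
        · simp
      rw [e1, e2, e3, qq_apply, qq_apply]
      simp [hiso _ hx1])
  exact ⟨c1, c2, c3⟩

/-- The trace of a map, as a linear form on the ring of algebraic maps. -/
noncomputable def tau (T : TotalRealization C W) (M M' : C) : algRing T M M' →ₗ[ℚ] ℚ :=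
  LinearMap.trace ℚ (W M × W M') ∘ₗ (algRing T M M').val.toLinearMap

omit [FiniteDimensional ℚ (W M)] [FiniteDimensional ℚ (W M')] in
theorem tau_comm (x y : algRing T M M') : tau T M M' (x * y) = tau T M M' (y * x) :=
  LinearMap.trace_mul_comm ℚ (x : Module.End ℚ (W M × W M')) (y : Module.End ℚ (W M × W M'))

theorem tau_P₁ (s : Standard T X) (h11 : Corr T X X) (X' : HodgeLefschetz d (W M')) (j : ℕ) :
    tau T M M' ((P₁ s h11 X').π j) = X.betti j := by
  change LinearMap.trace ℚ (W M × W M') (LinearMap.inl ℚ (W M) (W M') ∘ₗ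
    (X.pr j ∘ₗ LinearMap.fst ℚ (W M) (W M'))) = _
  rw [LinearMap.trace_comp_comm', X.betti_eq_trace]
  congr 1

theorem tau_P₂ (X : HodgeLefschetz d (W M)) (s' : Standard T X') (h22 : Corr T X' X') (j : ℕ) :
    tau T M M' ((P₂ X s' h22).π j) = X'.betti j := by
  change LinearMap.trace ℚ (W M × W M') (LinearMap.inr ℚ (W M) (W M') ∘ₗ
    (X'.pr j ∘ₗ LinearMap.snd ℚ (W M) (W M'))) = _
  rw [LinearMap.trace_comp_comm', X'.betti_eq_trace]
  congr 1

omit [FiniteDimensional ℚ (W M')] in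
/-- Primitive classes for the package of `X`. -/
theorem prim_of (s : Standard T X) (h11 : Corr T X X) (X' : HodgeLefschetz d (W M')) {j : ℕ}
    (h : NoPrimitive X j) (x : W M × W M') (hx : (P₁ s h11 X').π j • x = x)
    (hx0 : (P₁ s h11 X').L ^ (d - j + 1) • x = 0) : x = 0 := by
  have hx' : LinearMap.inl ℚ (W M) (W M') (X.pr j x.1) = x := hx
  have h3 : X.pr j x.1 = x.1 := congrArg Prod.fst hx'
  have h4 : x.2 = 0 := (congrArg Prod.snd hx').symm
  have h5 : ((show Module.End ℚ (W M × W M') from LinearMap.inl ℚ (W M) (W M') ∘ₗ X.lef ∘ₗ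
      LinearMap.fst ℚ (W M) (W M')) ^ (d - j + 1)) x = 0 := by
    have h6 : ((((P₁ s h11 X').L : algRing T M M') ^ (d - j + 1) : algRing T M M') :
      Module.End ℚ (W M × W M')) = (show Module.End ℚ (W M × W M') from
        LinearMap.inl ℚ (W M) (W M') ∘ₗ X.lef ∘ₗ
        LinearMap.fst ℚ (W M) (W M')) ^ (d - j + 1) :=
      SubmonoidClass.coe_pow (P₁ s h11 X').L (d - j + 1)
    rw [← h6]
    exact hx0
  have hx1 : x = LinearMap.inl ℚ (W M) (W M') x.1 := by
    ext
    · rfl
    · exact h4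
  rw [hx1, emb_pow_apply (by ext; simp)] at h5
  have h6 : (X.lef ^ (d - j + 1)) x.1 = 0 := congrArg Prod.fst h5
  have h7 := h x.1 h3 h6
  rw [hx1, h7, map_zero]

omit [FiniteDimensional ℚ (W M')] in
/-- The two conditions, for the package of `X`. -/
theorem cond_of (s : Standard T X) (h11 : Corr T X X) (X' : HodgeLefschetz d (W M')) (K : Set ℕ)
    (h : Criterion X K) : EvenCond (P₁ s h11 X') K ∧ Cond (P₁ s h11 X') K 1 := by
  obtain ⟨h1, h2⟩ := h
  constructor
  · rcases h1 with h1 | h1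
    · exact Or.inl h1
    · exact Or.inr (fun j hj1 hj2 hje x => prim_of s h11 X' (h1 j hj1 hj2 hje) x)
  · rcases h2 with h2 | ⟨h2, h3⟩
    · exact Or.inl h2
    · exact Or.inr ⟨h2, fun j hj1 hj2 hje x => prim_of s h11 X' (h3 j hj1 hj2 hje) x⟩

theorem tau_nonneg (e : algRing T M M') (he : e * e = e) : 0 ≤ tau T M M' e :=
  trace_nonneg (e : Module.End ℚ (W M × W M'))
    (congrArg (Subtype.val : algRing T M M' → Module.End ℚ (W M × W M')) he)

/-- All the graded pieces are isomorphic by algebraic maps. -/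
theorem mvn_moment (s : Standard T X) (s' : Standard T X') (h11 : Corr T X X)
    (h12 : Corr T X X') (h21 : Corr T X' X) (h22 : Corr T X' X') (R : X.RiemannRoch)
    (R' : X'.RiemannRoch) (u : W M ≃ₗ[ℚ] W M')
    (hu : u.toLinearMap ∈ T.alg M M') (hu' : u.symm.toLinearMap ∈ T.alg M' M)
    (hm : ∀ x y, X'.mukai (u x) (u y) = X.mukai x y)
    (hR : RiemannRoch.c1c X R = RiemannRoch.c1c X' R')
    (p12 : Products T X X' 2) (p21 : Products T X' X 2) (K : Set ℕ) (hK0 : 0 ∈ K)
    (hK : ∀ i ∈ K, AlgIso T X X' i) (hc : Criterion X K) :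
    ∀ j ≤ 2 * d, MvN ((P₁ s h11 X').π j) ((P₂ X s' h22).π j) := by
  refine all_of_moment (tau T M M') tau_comm tau_nonneg (regular_alg s s' h11 h12 h21 h22)
    (core_alg s s' h11 h12 h21 h22 u hu hu' hm) K hK0
    (fun i hi => mvn_of_algIso s s' h11 h22 (hK i hi)) ?_ ?_
    (cond_of s h11 X' K hc).1 (cond_of s h11 X' K hc).2
  · simp only [tau_P₁, tau_P₂]
    exact moment_betti R R' u (h12.isHodge hu) hR
  · intro hd h2
    rw [tau_P₁, tau_P₂] at h2
    exact mvn_of_algIso s s' h11 h22 (algIso_of_betti hd s.lef_alg s'.lef_alg p12 p21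
      (by exact_mod_cast h2))

end Fin

/-- The motives are isomorphic. -/
theorem iso_moment [Linear ℚ C] [∀ n : ℤ, (shiftFunctor C n).Additive]
    (T : TotalRealization C W) {d : ℕ} {M M' : C}
    [FiniteDimensional ℚ (W M)] [FiniteDimensional ℚ (W M')] {X : HodgeLefschetz d (W M)}
    {X' : HodgeLefschetz d (W M')} (R : X.RiemannRoch) (R' : X'.RiemannRoch)
    (s : StandardExceptTwo T X) (s' : StandardExceptTwo T X') (h11 : Corr T X X)
    (h12 : Corr T X X') (h21 : Corr T X' X) (h22 : Corr T X' X')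
    (hM : T.TrivialRadical M) (hM' : T.TrivialRadical M') (p : ExtProducts T X X' 2)
    (e : OrbitEquiv M M')
    (he : ∀ x y : W M, X'.mukai (T.total e.hom x) (T.total e.hom y) = X.mukai x y)
    (hR : RiemannRoch.c1c X R = RiemannRoch.c1c X' R') (K : Set ℕ) (hK0 : 0 ∈ K)
    (hK : ∀ i ∈ K, AlgIso T X X' i) (hc : Criterion X K) : Nonempty (M ≅ M') := by
  let u : W M ≃ₗ[ℚ] W M' := LinearEquiv.ofLinearMap (T.total e.hom) (T.total e.inv)
    (T.total_inv_hom e) (T.total_hom_inv e)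
  have hu : u.toLinearMap ∈ T.alg M M' := T.total_mem e.hom
  have hu' : u.symm.toLinearMap ∈ T.alg M' M := T.total_mem e.inv
  exact iso_of_mvn T hM hM' (s.standard p.p₁₁) (s'.standard p.p₂₂) h11 h22
    (mvn_moment (s.standard p.p₁₁) (s'.standard p.p₂₂) h11 h12 h21 h22 R R' u hu hu' he hR
      p.p₁₂ p.p₂₁ K hK0 hK hc)

end Pool.Agent.Lib.OrlovSix
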