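import Pool.Agent.Lib.OrlovSix.Abs
import Pool.Agent.Lib.OrlovChow.Defs
import Pool.Agent.Lib.OrlovFive.Main
import Pool.Agent.Lib.OrlovFive.Moment

/-!
# All degrees from the relation of Libgober and Wood, for Hodge structures
-/

set_option autoImplicit false

open scoped TensorProduct ComplexOrder

namespace Pool.Agent.Lib.OrlovSix

open Pool.Agent.Lib.OrlovSig Pool.Agent.Lib.OrlovChow HodgeLefschetz

variable {d : ℕ} {V V' : Type*} [AddCommGroup V] [Module ℚ V] [AddCommGroup V'] [Module ℚ V']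

/-- The condition on the set `K` of known degrees.  In the even degrees: a block contains at most
one even degree `≤ d` outside `K` and `2`, or there are no primitive classes in the even degrees
between `2` and `d`.  In the odd degrees: a block contains at most one odd degree `≤ d` outside `K`,
or `1 ∈ K` and there are no primitive classes in the odd degrees between `1` and `d`. -/
def Criterion (X : HodgeLefschetz d V) (K : Set ℕ) : Prop :=
  ((∀ i ≤ d, ∀ j ≤ d, i % 2 = 0 → j % 2 = 0 → block d i = block d j → i ∉ K → j ∉ K →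
      i ≠ 2 → j ≠ 2 → i = j) ∨
    (∀ j, 2 < j → j < d → j % 2 = 0 → NoPrimitive X j)) ∧
  ((∀ i ≤ d, ∀ j ≤ d, i % 2 = 1 → j % 2 = 1 → block d i = block d j →
      i ∉ K → j ∉ K → i = j) ∨
    (1 ∈ K ∧ ∀ j, 1 < j → j < d → j % 2 = 1 → NoPrimitive X j))

/-- The criterion holds up to dimension five, in dimension six if `P^3 = P^5 = 0`, and in general if
`P^j = 0` for `2 < j < d`. -/
theorem criterion_of (X : HodgeLefschetz d V) (K : Set ℕ) (h0 : 0 ∈ K) (h1 : 1 ∈ K)
    (h : d ≤ 5 ∨ (d = 6 ∧ NoPrimitive X 3 ∧ NoPrimitive X 5) ∨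
      ∀ j, 2 < j → j < d → NoPrimitive X j) : Criterion X K := by
  have ne : ∀ {i : ℕ}, i ∉ K → i ≠ 0 ∧ i ≠ 1 :=
    fun hi => ⟨fun h => hi (h ▸ h0), fun h => hi (h ▸ h1)⟩
  constructor
  · by_cases hd : d ≤ 6
    · left
      intro i hi j hj hie hje hb hiK hjK hi2 hj2
      obtain ⟨a1, a2⟩ := ne hiK
      obtain ⟨b1, b2⟩ := ne hjK
      unfold block at hb
      split_ifs at hb <;> omega
    · right
      rcases h with h | h | h
      · omega
      · omega
      · exact fun j hj hjd _ => h j hj hjd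
  · rcases h with h | ⟨h, h3, h5⟩ | h
    · left
      intro i hi j hj hie hje hb hiK hjK
      obtain ⟨a1, a2⟩ := ne hiK
      obtain ⟨b1, b2⟩ := ne hjK
      unfold block at hb
      split_ifs at hb <;> omega
    · right
      refine ⟨h1, fun j hj1 hj2 hje => ?_⟩
      obtain rfl | rfl : j = 3 ∨ j = 5 := by omega
      · exact h3
      · exact h5
    · right
      exact ⟨h1, fun j hj1 hj2 hje => h j (by omega) hj2⟩

/-- The moment relation of the Betti numbers. -/
theorem moment_betti [FiniteDimensional ℚ V] [FiniteDimensional ℚ V'] {X : HodgeLefschetz d V}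
    {X' : HodgeLefschetz d V'} (R : X.RiemannRoch) (R' : X'.RiemannRoch) (u : V ≃ₗ[ℚ] V')
    (hu : X.IsHodge X' u.toLinearMap)
    (hR : RiemannRoch.c1c X R = RiemannRoch.c1c X' R') :
    ∑ j ∈ Finset.range (2 * d + 1), (-1 : ℚ) ^ j * ((j : ℚ) - d) ^ 2 * X.betti j =
      ∑ j ∈ Finset.range (2 * d + 1), (-1 : ℚ) ^ j * ((j : ℚ) - d) ^ 2 * X'.betti j := by
  have h := X.moment X' R R' u hu
  rw [hR] at h
  linarith

/-- The trace of a map, as a linear form on the ring of Hodge maps. -/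
noncomputable def tauH (X : HodgeLefschetz d V) (X' : HodgeLefschetz d V') :
    X.blockAlg X' →ₗ[ℚ] ℚ :=
  LinearMap.trace ℚ (V × V') ∘ₗ (X.blockAlg X').val.toLinearMap

theorem tauH_comm {X : HodgeLefschetz d V} {X' : HodgeLefschetz d V'} (x y : X.blockAlg X') :
    tauH X X' (x * y) = tauH X X' (y * x) :=
  LinearMap.trace_mul_comm ℚ (x : Module.End ℚ (V × V')) (y : Module.End ℚ (V × V'))

variable [FiniteDimensional ℚ V] [FiniteDimensional ℚ V']

theorem tauH_pkg₁ (X : HodgeLefschetz d V) (X' : HodgeLefschetz d V') (j : ℕ) :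
    tauH X X' ((X.pkg₁ X').π j) = X.betti j := by
  change LinearMap.trace ℚ (V × V') (LinearMap.inl ℚ V V' ∘ₗ
    (X.pr j ∘ₗ LinearMap.fst ℚ V V')) = _
  rw [LinearMap.trace_comp_comm', X.betti_eq_trace]
  congr 1

theorem tauH_pkg₂ (X : HodgeLefschetz d V) (X' : HodgeLefschetz d V') (j : ℕ) :
    tauH X X' ((X.pkg₂ X').π j) = X'.betti j := by
  change LinearMap.trace ℚ (V × V') (LinearMap.inr ℚ V V' ∘ₗ
    (X'.pr j ∘ₗ LinearMap.snd ℚ V V')) = _
  rw [LinearMap.trace_comp_comm', X'.betti_eq_trace]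
  congr 1

omit [FiniteDimensional ℚ V'] in
/-- Primitive classes for the package of `X`. -/
theorem prim_hodge (X : HodgeLefschetz d V) (X' : HodgeLefschetz d V') {j : ℕ}
    (h : NoPrimitive X j) (x : V × V') (hx : (X.pkg₁ X').π j • x = x)
    (hx0 : (X.pkg₁ X').L ^ (d - j + 1) • x = 0) : x = 0 := by
  have hx' : LinearMap.inl ℚ V V' (X.pr j x.1) = x := hx
  have h3 : X.pr j x.1 = x.1 := congrArg Prod.fst hx'
  have h4 : x.2 = 0 := (congrArg Prod.snd hx').symm
  have h5 : ((show Module.End ℚ (V × V') from LinearMap.inl ℚ V V' ∘ₗ X.lef ∘ₗ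
      LinearMap.fst ℚ V V') ^ (d - j + 1)) x = 0 := by
    have h6 : ((((X.pkg₁ X').L : X.blockAlg X') ^ (d - j + 1) : X.blockAlg X') :
      Module.End ℚ (V × V')) = (show Module.End ℚ (V × V') from
        LinearMap.inl ℚ V V' ∘ₗ X.lef ∘ₗ
        LinearMap.fst ℚ V V') ^ (d - j + 1) :=
      SubmonoidClass.coe_pow (X.pkg₁ X').L (d - j + 1)
    rw [← h6]
    exact hx0
  have hx1 : x = LinearMap.inl ℚ V V' x.1 := by
    ext
    · rfl
    · exact h4
  rw [hx1, emb_pow_apply (by ext; simp)] at h5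
  have h6 : (X.lef ^ (d - j + 1)) x.1 = 0 := congrArg Prod.fst h5
  have h7 := h x.1 h3 h6
  rw [hx1, h7, map_zero]

omit [FiniteDimensional ℚ V'] in
/-- The two conditions, for the package of `X`. -/
theorem cond_hodge (X : HodgeLefschetz d V) (X' : HodgeLefschetz d V') (K : Set ℕ)
    (h : Criterion X K) : EvenCond (X.pkg₁ X') K ∧ Cond (X.pkg₁ X') K 1 := by
  obtain ⟨h1, h2⟩ := h
  constructor
  · rcases h1 with h1 | h1
    · exact Or.inl h1
    · exact Or.inr (fun j hj1 hj2 hje x => prim_hodge X X' (h1 j hj1 hj2 hje) x)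
  · rcases h2 with h2 | ⟨h2, h3⟩
    · exact Or.inl h2
    · exact Or.inr ⟨h2, fun j hj1 hj2 hje x => prim_hodge X X' (h3 j hj1 hj2 hje) x⟩

omit [FiniteDimensional ℚ V] [FiniteDimensional ℚ V'] in
/-- The trace of an idempotent is not negative. -/
theorem trace_nonneg {U : Type*} [AddCommGroup U] [Module ℚ U] [FiniteDimensional ℚ U]
    (f : Module.End ℚ U) (hf : f * f = f) : 0 ≤ LinearMap.trace ℚ U f := by
  have h : IsIdempotentElem f := hf
  rw [(LinearMap.IsIdempotentElem.isProj_range _ h).trace]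
  exact Nat.cast_nonneg _

theorem tauH_nonneg {X : HodgeLefschetz d V} {X' : HodgeLefschetz d V'} (e : X.blockAlg X')
    (he : e * e = e) : 0 ≤ tauH X X' e :=
  trace_nonneg (e : Module.End ℚ (V × V'))
    (congrArg (Subtype.val : X.blockAlg X' → Module.End ℚ (V × V')) he)

/-- Betti numbers and Hodge structures in all degrees. -/
theorem hodge_moment (X : HodgeLefschetz d V) (X' : HodgeLefschetz d V') (R : X.RiemannRoch)
    (R' : X'.RiemannRoch) (u : V ≃ₗ[ℚ] V') (hu : X.IsHodge X' u.toLinearMap)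
    (hm : ∀ x y, X'.mukai (u x) (u y) = X.mukai x y)
    (hR : RiemannRoch.c1c X R = RiemannRoch.c1c X' R') (K : Set ℕ) (hK0 : 0 ∈ K)
    (hK : ∀ i ∈ K, X.HodgeIso X' i) (hc : Criterion X K) :
    (∀ j, X.betti j = X'.betti j) ∧
      (X.hodge 2 0 = 0 → X'.hodge 2 0 = 0 → ∀ j, X.HodgeIso X' j) := by
  have hcore : CoreEq (X.pkg₁ X') (X.pkg₂ X') := by
    obtain ⟨c1, c2, c3⟩ := X.core_hodge X' u hu hm
    exact ⟨c1, c2, c3⟩
  have hmom : ∑ j ∈ Finset.range (2 * d + 1), (-1 : ℚ) ^ j * ((j : ℚ) - d) ^ 2 *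
        tauH X X' ((X.pkg₁ X').π j) =
      ∑ j ∈ Finset.range (2 * d + 1), (-1 : ℚ) ^ j * ((j : ℚ) - d) ^ 2 *
        tauH X X' ((X.pkg₂ X').π j) := by
    simp only [tauH_pkg₁, tauH_pkg₂]
    exact moment_betti R R' u hu hR
  have hb : ∀ j, X.betti j = X'.betti j := by
    intro j
    rcases Nat.lt_or_ge (2 * d) j with h1 | h1
    · have e1 := X.betti_eq_trace j
      have e2 := X'.betti_eq_trace j
      rw [X.pr_top j h1, map_zero] at e1
      rw [X'.pr_top j h1, map_zero] at e2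
      exact_mod_cast e1.trans e2.symm
    · have h2 := tau_all (tauH X X') tauH_comm tauH_nonneg (X.regular X') hcore K hK0
        (fun i hi => X.mvn_of_hodgeIso X' i (hK i hi)) hmom (cond_hodge X X' K hc).1
        (cond_hodge X X' K hc).2 j h1
      rw [tauH_pkg₁, tauH_pkg₂] at h2
      exact_mod_cast h2
  refine ⟨hb, fun h20 h20' j => ?_⟩
  rcases Nat.lt_or_ge (2 * d) j with h1 | h1
  · exact X.hodgeIso_top X' j h1
  · refine X.hodgeIso_of_mvn X' j (all_of_moment (tauH X X') tauH_comm tauH_nonneg (X.regular X') hcore K hK0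
      (fun i hi => X.mvn_of_hodgeIso X' i (hK i hi)) hmom ?_
        (cond_hodge X X' K hc).1 (cond_hodge X X' K hc).2 j h1)
    intro _ _
    refine X.mvn_of_hodgeIso X' 2 (X.hodgeIso_of_tate X' 1 1 (X.hp_one_one h20)
      (X'.hp_one_one h20') (hb 2))

end Pool.Agent.Lib.OrlovSix
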