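import Pool.Agent.Lib.OrlovSix.Core

/-!
# MP_5c0b30_ag: derived equivalent varieties with numerically trivial canonical class

`C` is a `ℚ`-linear category with an additive action `X ↦ X⟦n⟧` of `ℤ` (Chow motives with rational
coefficients over a subfield of `ℂ`, and the Tate twists), `T` is its realization in total
cohomology, `M`, `M'` are the motives of two connected smooth projective varieties of dimension `d`,
`X`, `X'` are the Hodge-Lefschetz data on their cohomology and `R`, `R'` the numerical consequences
of the theorem of Riemann-Roch for them.  By Orlov, a derived equivalence gives an isomorphism `e`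
between `M` and `M'` in the orbit category `Hom(X, Y) = ⨁ n : ℤ, Hom_C(X, Y⟦n⟧)`, which respects the
sums of the `H^{p,q}` with `p - q = c` and the generalised Mukai pairings.
-/

set_option autoImplicit false

open CategoryTheory
open scoped TensorProduct

namespace Pool.Agent.Lib.OrlovSix.KTrivialMotives

open Pool.Agent.Lib.OrlovSig Pool.Agent.Lib.MP_5c0b30_ag Pool.Agent.Lib.OrlovChow
  Pool.Agent.Lib.OrlovSix

universe v u w

/-- Let `K` be a set of degrees `i` with `H^i ≅ H'^i`, and assume `c₁(X) = 0`, or only that the Chern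
numbers `c₁ c_{d-1}` of `X` and `X'` agree.  If `Criterion X K` holds, in particular if `1 ∈ K` and
`d ≤ 5`, or `d = 6` and `X` has no primitive classes of degrees `3` and `5`, or `X` has no primitive
classes of degrees between `2` and `d`, then all Betti numbers agree, for `h^{2,0} = 0` all Hodge
structures `H^j` and `H'^j` are isomorphic, and the motives `M` and `M'` are isomorphic if the
classes of degree two are algebraic, the Lefschetz standard conjecture holds in the other degrees and
cohomologically trivial endomorphisms are radical.  Moreover for `d = 5` the differences of `c₁ c₄`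
and of `χ(O)` are `24 (b₂ - b₂')` and `h^{2,0} - h'^{2,0}`, and if they are zero all Hodge numbers
agree. -/
theorem result {C : Type u} [Category.{v} C] [Preadditive C] [Linear ℚ C] [HasShift C ℤ]
    [∀ n : ℤ, (shiftFunctor C n).Additive] {W : C → Type w} [∀ X, AddCommGroup (W X)]
    [∀ X, Module ℚ (W X)] (T : TotalRealization C W) {d : ℕ} {M M' : C}
    [FiniteDimensional ℚ (W M)] [FiniteDimensional ℚ (W M')] (X : HodgeLefschetz d (W M))
    (X' : HodgeLefschetz d (W M')) (R : X.RiemannRoch) (R' : X'.RiemannRoch) (e : OrbitEquiv M M')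
    (hH : ∀ (c : ℤ) (x : ℂ ⊗[ℚ] W M), (T.total e.hom).baseChange ℂ (X.col c x) =
      X'.col c ((T.total e.hom).baseChange ℂ x))
    (he : ∀ x y : W M, X'.mukai (T.total e.hom x) (T.total e.hom y) = X.mukai x y)
    (K : Set ℕ) (h0 : 0 ∈ K) (hK : ∀ i ∈ K, X.HodgeIso X' i) :
    (X.can = 0 ∨ X.pair R.one (X.can R.chern) = X'.pair R'.one (X'.can R'.chern) →
      Criterion X K ∨ (1 ∈ K ∧ (d ≤ 5 ∨ (d = 6 ∧ NoPrimitive X 3 ∧ NoPrimitive X 5) ∨
        ∀ j, 2 < j → j < d → NoPrimitive X j)) →
      (∀ j, X.betti j = X'.betti j) ∧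
      (X.hodge 2 0 = 0 → X'.hodge 2 0 = 0 → ∀ j, X.HodgeIso X' j) ∧
      (StandardExceptTwo T X → StandardExceptTwo T X' → Corr T X X → Corr T X X' →
        Corr T X' X → Corr T X' X' → T.TrivialRadical M → T.TrivialRadical M' →
        ExtProducts T X X' 2 → (∀ i ∈ K, AlgIso T X X' i) → Nonempty (M ≅ M'))) ∧
    (d = 5 → 1 ∈ K →
      X.pair R.one (X.can R.chern) - X'.pair R'.one (X'.can R'.chern) =
        24 * ((X.betti 2 : ℚ) - X'.betti 2) ∧
      X.eulerO - X'.eulerO = (X.hodge 2 0 : ℤ) - X'.hodge 2 0 ∧
      (X.can = 0 ∨ X.betti 2 = X'.betti 2 ∧ X.hodge 2 0 = X'.hodge 2 0 →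
        ∀ p q, X.hodge p q = X'.hodge p q)) := by
  let u : W M ≃ₗ[ℚ] W M' := LinearEquiv.ofLinearMap (T.total e.hom) (T.total e.inv)
    (T.total_inv_hom e) (T.total_hom_inv e)
  have hu : X.IsHodge X' u.toLinearMap := by
    unfold HodgeLefschetz.IsHodge
    intro c x
    exact (hH c x).symm ▸ rfl
  have hm : ∀ x y, X'.mukai (u x) (u y) = X.mukai x y := he
  constructor
  · intro h1 h2
    have hR : HodgeLefschetz.RiemannRoch.c1c X R = HodgeLefschetz.RiemannRoch.c1c X' R' := by
      rcases h1 with h1 | h1
      · have h3 := X.can_zero X' u hm h1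
        unfold HodgeLefschetz.RiemannRoch.c1c
        rw [h1, h3, LinearMap.zero_apply, LinearMap.zero_apply, map_zero, map_zero]
      · exact h1
    have hc : Criterion X K := by
      rcases h2 with h2 | ⟨h2, h3⟩
      · exact h2
      · exact criterion_of X K h0 h2 h3
    obtain ⟨k1, k2⟩ := hodge_moment X X' R R' u hu hm hR K h0 hK hc
    refine ⟨k1, k2, fun s s' h11 h12 h21 h22 hM hM' p ha => ?_⟩
    exact iso_moment T R R' s s' h11 h12 h21 h22 hM hM' p e he hR K h0 ha hc
  · intro hd h1
    subst hd
    have k2 := X.betti_iff X' R R' u hu hm (hK 1 h1)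
    have k3 := X.eulerO_sub X' u hu hm (hK 1 h1)
    refine ⟨k2.1, k3, fun h => ?_⟩
    have h4 : X.betti 2 = X'.betti 2 ∧ X.hodge 2 0 = X'.hodge 2 0 := by
      rcases h with h | h
      · obtain ⟨e1, e2⟩ := X.numbers_of_can X' R R' h (X.can_zero X' u hm h)
        constructor
        · have e4 := k2.1
          rw [e1, sub_self] at e4
          have e5 : (X.betti 2 : ℚ) = X'.betti 2 := by linarith
          exact_mod_cast e5
        · rw [e2, sub_self] at k3
          omega
      · exact h
    exact X.hodge_iff X' u hu hm (hK 1 h1) h4.1 h4.2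

end Pool.Agent.Lib.OrlovSix.KTrivialMotives
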